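import Mathlib

/-! # The constants -/

set_option autoImplicit false

namespace Pool.Agent.V7H37.RT

lemma small_const (K : ℝ) (N : ℕ) {c : ℝ} (hc : 0 < c) :
    ∃ C₀ : ℕ, ∀ C : ℕ, C₀ ≤ C → ∀ B : ℝ, 2 ≤ B → K * B ^ N * (1 / B ^ C) < c := by
  obtain ⟨m, hm⟩ := pow_unbounded_of_one_lt (|K| / c) (one_lt_two (α := ℝ))
  refine ⟨N + m, fun C hC B hB => ?_⟩
  have hB0 : 0 < B := by linarith
  have hB1 : 1 ≤ B := by linarith
  rw [div_lt_iff₀ hc] at hm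
  rw [mul_one_div, div_lt_iff₀ (by positivity)]
  have h1 : B ^ (N + m) ≤ B ^ C := pow_le_pow_right₀ hB1 hC
  have h2 : (2 : ℝ) ^ m ≤ B ^ m := pow_le_pow_left₀ (by norm_num) hB m
  calc K * B ^ N ≤ |K| * B ^ N := mul_le_mul_of_nonneg_right (le_abs_self K) (by positivity)
    _ < 2 ^ m * c * B ^ N := mul_lt_mul_of_pos_right hm (by positivity)
    _ ≤ B ^ m * c * B ^ N := by gcongr
    _ = c * B ^ (N + m) := by rw [pow_add]; ring
    _ ≤ c * B ^ C := mul_le_mul_of_nonneg_left h1 hc.le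

lemma exists_consts (d : ℕ) (R R' : ℝ) {ν : ℝ} (hν : 0 < ν) : ∃ C₀ : ℕ, ∀ C : ℕ, C₀ ≤ C →
    ∀ B : ℝ, 2 ≤ B →
      d * (d * (R' * (d * (2 * (B * (B * (1 / B ^ C)))))) * R) < 1 ∧
      d.factorial * (d * (d * (d * B) ^ (2 * d)) ^ d *
        (d * ((2 * d) * (d * B) ^ (2 * d) * (1 / B ^ C)))) ≤ 1 / 2 ∧
      8 * (d * d) * (2 * B) ^ (d * d) * (1 / B ^ C) ≤ 1 ∧
      2 * (d * ((d + 1) * ((2 * (d * B)) ^ d * (d * (d * B) ^ d * (1 / B ^ C)))) * R) *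
        (d * ((d + 1) * ((2 * (d * B)) ^ d * (d * B) ^ d)) * R) ^ (d - 1) < ν := by
  obtain ⟨C1, h1⟩ := small_const (2 * d * d * R' * d * R) 2 one_pos
  obtain ⟨C2, h2⟩ := small_const (d.factorial * (d * (d * (d : ℝ) ^ (2 * d)) ^ d *
    (d * ((2 * d) * (d : ℝ) ^ (2 * d))))) (2 * d * d + 2 * d) (c := 1 / 2) (by norm_num)
  obtain ⟨C3, h3⟩ := small_const (8 * (d * d) * 2 ^ (d * d)) (d * d) one_pos
  obtain ⟨C4, h4⟩ := small_const (2 * (d * ((d + 1) * ((2 * (d : ℝ)) ^ d * (d * (d : ℝ) ^ d))) * R) *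
    (d * ((d + 1) * ((2 * (d : ℝ)) ^ d * (d : ℝ) ^ d)) * R) ^ (d - 1)) (2 * d + 2 * d * (d - 1)) hν
  refine ⟨C1 + C2 + C3 + C4, fun C hC B hB => ⟨?_, ?_, ?_, ?_⟩⟩
  · have := h1 C (by omega) B hB
    refine lt_of_eq_of_lt ?_ this
    ring
  · have := h2 C (by omega) B hB
    refine (lt_of_eq_of_lt ?_ this).le
    rw [pow_add, mul_pow (d : ℝ) B (2 * d), mul_pow (d : ℝ), mul_pow ((d : ℝ) ^ (2 * d)), ← pow_mul B]
    ring
  · have := h3 C (by omega) B hB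
    refine (lt_of_eq_of_lt ?_ this).le
    rw [mul_pow 2 B]
    ring
  · have := h4 C (by omega) B hB
    refine lt_of_eq_of_lt ?_ this
    have e : (d : ℝ) * ((d + 1) * ((2 * (d * B)) ^ d * (d * B) ^ d)) * R =
        (d * ((d + 1) * ((2 * (d : ℝ)) ^ d * (d : ℝ) ^ d)) * R) * B ^ (2 * d) := by
      rw [← mul_assoc 2 (d : ℝ) B, mul_pow (2 * (d : ℝ)) B, mul_pow (d : ℝ) B, two_mul d, pow_add]
      ring
    rw [e, mul_pow _ (B ^ (2 * d)), ← pow_mul B, pow_add, ← mul_assoc 2 (d : ℝ) B,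
      mul_pow (2 * (d : ℝ)) B, mul_pow (d : ℝ) B, two_mul d, pow_add B d d]
    ring

end Pool.Agent.V7H37.RT
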