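import Mathlib

/-! # Rational matrices with irreducible characteristic polynomial: centraliser and trace form -/

set_option autoImplicit false

open Matrix Polynomial

namespace Pool.Agent.V7H37.RT

variable {d : ℕ}

lemma natDegree_charpoly' (A : Matrix (Fin d) (Fin d) ℚ) : A.charpoly.natDegree = d := by
  rw [charpoly_natDegree_eq_dim, Fintype.card_fin]

/-- polynomials of smaller degree are invertible at `A` -/
lemma inv_aeval (A : Matrix (Fin d) (Fin d) ℚ) (hA : Irreducible A.charpoly) {q : ℚ[X]}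
    (hq0 : q ≠ 0) (hq : q.natDegree < d) : ∃ u : ℚ[X], aeval A u * aeval A q = 1 := by
  have hnd : ¬ A.charpoly ∣ q := by
    intro hdvd
    have := Polynomial.natDegree_le_of_dvd hdvd hq0
    rw [natDegree_charpoly'] at this
    omega
  obtain ⟨a, b, hab⟩ := (Irreducible.coprime_iff_not_dvd hA).2 hnd
  refine ⟨b, ?_⟩
  have h1 := congrArg (aeval A) hab
  rw [map_add, map_mul, map_mul, Matrix.aeval_self_charpoly, mul_zero, zero_add, map_one] at h1
  exact h1

/-- the polynomial with given coefficients -/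
lemma exists_poly_of_coeffs (A : Matrix (Fin d) (Fin d) ℚ) (g : Fin d → ℚ) :
    ∃ q : ℚ[X], (∀ i : Fin d, q.coeff i = g i) ∧ (q ≠ 0 → q.natDegree < d) ∧
      aeval A q = ∑ i : Fin d, g i • A ^ (i : ℕ) := by
  classical
  refine ⟨∑ i : Fin d, monomial (i : ℕ) (g i), fun i => ?_, fun h0 => ?_, ?_⟩
  · rw [finsetSum_coeff]
    rw [Finset.sum_eq_single i]
    · rw [coeff_monomial, if_pos rfl]
    · intro j _ hj
      rw [coeff_monomial, if_neg (fun h => hj (Fin.ext h))]
    · intro h; exact absurd (Finset.mem_univ i) h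
  · rw [natDegree_lt_iff_degree_lt h0]
    refine (degree_sum_le _ _).trans_lt ?_
    rw [Finset.sup_lt_iff (WithBot.bot_lt_coe _)]
    intro i _
    refine (degree_monomial_le _ _).trans_lt ?_
    exact_mod_cast i.2
  · rw [map_sum]
    refine Finset.sum_congr rfl fun i _ => ?_
    rw [aeval_monomial, Algebra.smul_def]

/-- **The centraliser.** -/
theorem exists_poly (A : Matrix (Fin d) (Fin d) ℚ) (hA : Irreducible A.charpoly)
    (Z : Matrix (Fin d) (Fin d) ℚ) (hZ : Z * A = A * Z) : ∃ p : ℚ[X], Z = aeval A p := by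
  classical
  have hd : 0 < d := by
    have := hA.natDegree_pos
    rwa [natDegree_charpoly'] at this
  set x : Fin d → ℚ := Pi.single ⟨0, hd⟩ 1 with hx
  have hx0 : x ≠ 0 := by
    intro h0
    have := congrFun h0 ⟨0, hd⟩
    rw [hx, Pi.single_eq_same] at this
    exact one_ne_zero this
  set v : Fin d → (Fin d → ℚ) := fun i => A ^ (i : ℕ) *ᵥ x with hv
  have hsum : ∀ g : Fin d → ℚ, (∑ i : Fin d, g i • A ^ (i : ℕ)) *ᵥ x = ∑ i, g i • v i := by
    intro g
    rw [Matrix.sum_mulVec]
    exact Finset.sum_congr rfl fun i _ => by rw [smul_mulVec]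
  have hli : LinearIndependent ℚ v := by
    rw [Fintype.linearIndependent_iff]
    intro g hg
    obtain ⟨q, hq1, hq2, hq3⟩ := exists_poly_of_coeffs A g
    by_cases hq0 : q = 0
    · intro i
      rw [← hq1 i, hq0, coeff_zero]
    exfalso
    obtain ⟨u, hu⟩ := inv_aeval A hA hq0 (hq2 hq0)
    apply hx0
    have h1 : aeval A q *ᵥ x = 0 := by rw [hq3, hsum, hg]
    calc x = (1 : Matrix (Fin d) (Fin d) ℚ) *ᵥ x := (one_mulVec x).symm
      _ = (aeval A u * aeval A q) *ᵥ x := by rw [hu]
      _ = 0 := by rw [← mulVec_mulVec, h1, mulVec_zero]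
  have hcard : Fintype.card (Fin d) = Module.finrank ℚ (Fin d → ℚ) := by
    rw [Module.finrank_fintype_fun_eq_card]
  have hne : Nonempty (Fin d) := ⟨⟨0, hd⟩⟩
  set b := basisOfLinearIndependentOfCardEqFinrank hli hcard with hb
  have hbv : ∀ i, b i = v i := fun i => by
    rw [hb, coe_basisOfLinearIndependentOfCardEqFinrank]
  obtain ⟨p, -, -, hp⟩ := exists_poly_of_coeffs A (fun i => b.repr (Z *ᵥ x) i)
  refine ⟨p, ?_⟩
  have hpx : aeval A p *ᵥ x = Z *ᵥ x := by
    rw [hp, hsum]
    have := b.sum_repr (Z *ᵥ x)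
    rw [← this]
    refine Finset.sum_congr rfl fun i _ => ?_
    rw [hbv, b.sum_repr]
  have hcomm : ∀ (W : Matrix (Fin d) (Fin d) ℚ), W * A = A * W → ∀ n : ℕ, W * A ^ n = A ^ n * W := by
    intro W hW n
    induction n with
    | zero => simp
    | succ n ih => rw [pow_succ, ← mul_assoc, ih, mul_assoc, hW, mul_assoc]
  have hPA : aeval A p * A = A * aeval A p := by
    have h1 : aeval A (p * X) = aeval A (X * p) := by rw [mul_comm]
    rwa [map_mul, map_mul, aeval_X] at h1
  have hlin : Matrix.toLin' Z = Matrix.toLin' (aeval A p) := by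
    refine b.ext fun i => ?_
    rw [hbv, Matrix.toLin'_apply, Matrix.toLin'_apply, hv]
    simp only
    rw [mulVec_mulVec, mulVec_mulVec, hcomm Z hZ, hcomm _ hPA, ← mulVec_mulVec, ← mulVec_mulVec, hpx]
  exact Matrix.toLin'.injective hlin

/-- the centraliser is commutative -/
theorem comm_trans (A : Matrix (Fin d) (Fin d) ℚ) (hA : Irreducible A.charpoly)
    (Z W : Matrix (Fin d) (Fin d) ℚ) (hZ : Z * A = A * Z) (hW : W * A = A * W) : Z * W = W * Z := by
  obtain ⟨p, rfl⟩ := exists_poly A hA Z hZ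
  obtain ⟨q, rfl⟩ := exists_poly A hA W hW
  rw [← map_mul, ← map_mul, mul_comm]

/-- **The trace form is nondegenerate.** -/
theorem trace_form_ne (A : Matrix (Fin d) (Fin d) ℚ) (hA : Irreducible A.charpoly) :
    (Matrix.of fun i j : Fin d => (A ^ ((i : ℕ) + (j : ℕ))).trace).det ≠ 0 := by
  classical
  intro h0
  have hd : 0 < d := by
    have := hA.natDegree_pos
    rwa [natDegree_charpoly'] at this
  obtain ⟨v, hv, hv0⟩ := exists_mulVec_eq_zero_iff.2 h0
  obtain ⟨q, hq1, hq2, hq3⟩ := exists_poly_of_coeffs A v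
  have hq0 : q ≠ 0 := by
    rintro rfl
    apply hv
    funext i
    rw [← hq1 i, coeff_zero]
    rfl
  obtain ⟨u, hu⟩ := inv_aeval A hA hq0 (hq2 hq0)
  have htr : ∀ i : Fin d, (A ^ (i : ℕ) * aeval A q).trace = 0 := by
    intro i
    have h1 := congrFun hv0 i
    rw [hq3, Finset.mul_sum, Matrix.trace_sum]
    simp only [mulVec, dotProduct, Matrix.of_apply, Pi.zero_apply] at h1
    rw [← h1]
    refine Finset.sum_congr rfl fun j _ => ?_
    rw [mul_smul_comm, ← pow_add, Matrix.trace_smul, smul_eq_mul, mul_comm]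
  set u' := u %ₘ A.charpoly with hu'
  have hmon : A.charpoly.Monic := charpoly_monic A
  have h1 : aeval A u' = aeval A u := by
    have h2 := congrArg (aeval A) (modByMonic_add_div u A.charpoly)
    rw [map_add, map_mul, Matrix.aeval_self_charpoly, zero_mul, add_zero] at h2
    exact h2
  have hdeg : u'.natDegree < d := by
    by_cases h0 : u' = 0
    · rw [h0, natDegree_zero]; exact hd
    have h2 := natDegree_modByMonic_lt u hmon (by
      intro h1
      have := natDegree_charpoly' A
      rw [h1, natDegree_one] at this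
      omega)
    rwa [natDegree_charpoly'] at h2
  have h3 : aeval A u' = ∑ i : Fin d, u'.coeff i • A ^ (i : ℕ) := by
    rw [aeval_eq_sum_range' hdeg, Finset.sum_range]
  have h4 : (aeval A u' * aeval A q).trace = 0 := by
    rw [h3, Finset.sum_mul, Matrix.trace_sum]
    refine Finset.sum_eq_zero fun i _ => ?_
    rw [smul_mul_assoc, Matrix.trace_smul, htr, smul_zero]
  rw [h1, hu, Matrix.trace_one, Fintype.card_fin] at h4
  have : (d : ℚ) ≠ 0 := by exact_mod_cast hd.ne'
  exact this h4

end Pool.Agent.V7H37.RT
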