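import Mathlib

/-! # Near-diagonal real matrices -/

set_option autoImplicit false

open Matrix

namespace Pool.Agent.V7H37.RT

variable {d : ℕ}

/-- the entries are at most `T` in absolute value -/
def MB (A : Matrix (Fin d) (Fin d) ℝ) (T : ℝ) : Prop := ∀ i j, |A i j| ≤ T

/-- the diagonal entries are at most `B`, the others at most `η` in absolute value -/
def ND (B η : ℝ) (X : Matrix (Fin d) (Fin d) ℝ) : Prop := ∀ i j, |X i j| ≤ if i = j then B else η

lemma ND.mb {B η : ℝ} {X : Matrix (Fin d) (Fin d) ℝ} (h : ND B η X) (hη : η ≤ B) : MB X B := by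
  intro i j
  refine (h i j).trans ?_
  split_ifs
  · exact le_rfl
  · exact hη

lemma ND.mono {B η B' η' : ℝ} {X : Matrix (Fin d) (Fin d) ℝ} (h : ND B η X) (hB : B ≤ B')
    (hη : η ≤ η') : ND B' η' X := by
  intro i j
  refine (h i j).trans ?_
  split_ifs
  · exact hB
  · exact hη

lemma MB.mul {A A' : Matrix (Fin d) (Fin d) ℝ} {T T' : ℝ} (h : MB A T) (h' : MB A' T') :
    MB (A * A') (d * (T * T')) := by
  intro i j
  rw [Matrix.mul_apply]
  calc |∑ k, A i k * A' k j| ≤ ∑ k, |A i k * A' k j| := Finset.abs_sum_le_sum_abs _ _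
    _ ≤ ∑ _k : Fin d, T * T' := Finset.sum_le_sum fun k _ => by
        rw [abs_mul]
        exact mul_le_mul (h i k) (h' k j) (abs_nonneg _) ((abs_nonneg _).trans (h i k))
    _ = d * (T * T') := by rw [Finset.sum_const, Finset.card_univ, Fintype.card_fin, nsmul_eq_mul]

/-- **Commutators of near-diagonal matrices are small.** -/
lemma comm_small {B η : ℝ} (hη : 0 ≤ η) (hηB : η ≤ B) {X Y : Matrix (Fin d) (Fin d) ℝ}
    (hX : ND B η X) (hY : ND B η Y) : MB (X * Y - Y * X) (d * (2 * (B * η))) := by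
  intro i j
  have hB : 0 ≤ B := hη.trans hηB
  have hBη : 0 ≤ B * η := mul_nonneg hB hη
  rw [Matrix.sub_apply, Matrix.mul_apply, Matrix.mul_apply, ← Finset.sum_sub_distrib]
  have hterm : ∀ k, |X i k * Y k j - Y i k * X k j| ≤ 2 * (B * η) := by
    intro k
    by_cases hik : i = k
    · by_cases hkj : k = j
      · subst hik; subst hkj
        rw [mul_comm, sub_self, abs_zero]
        positivity
      · have h1 : |X i k| ≤ B := hX.mb hηB i k
        have h2 : |Y i k| ≤ B := hY.mb hηB i k
        have h3 : |Y k j| ≤ η := by have := hY k j; rwa [if_neg hkj] at this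
        have h4 : |X k j| ≤ η := by have := hX k j; rwa [if_neg hkj] at this
        calc |X i k * Y k j - Y i k * X k j| ≤ |X i k * Y k j| + |Y i k * X k j| := abs_sub _ _
          _ ≤ B * η + B * η := by
              rw [abs_mul, abs_mul]
              exact add_le_add (mul_le_mul h1 h3 (abs_nonneg _) hB)
                (mul_le_mul h2 h4 (abs_nonneg _) hB)
          _ = 2 * (B * η) := by ring
    · have h1 : |X i k| ≤ η := by have := hX i k; rwa [if_neg hik] at this
      have h2 : |Y i k| ≤ η := by have := hY i k; rwa [if_neg hik] at this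
      have h3 : |Y k j| ≤ B := hY.mb hηB k j
      have h4 : |X k j| ≤ B := hX.mb hηB k j
      calc |X i k * Y k j - Y i k * X k j| ≤ |X i k * Y k j| + |Y i k * X k j| := abs_sub _ _
        _ ≤ η * B + η * B := by
            rw [abs_mul, abs_mul]
            exact add_le_add (mul_le_mul h1 h3 (abs_nonneg _) hη)
              (mul_le_mul h2 h4 (abs_nonneg _) hη)
        _ = 2 * (B * η) := by ring
  calc |∑ k, (X i k * Y k j - Y i k * X k j)| ≤ ∑ k, |X i k * Y k j - Y i k * X k j| :=
        Finset.abs_sum_le_sum_abs _ _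
    _ ≤ ∑ _k : Fin d, 2 * (B * η) := Finset.sum_le_sum fun k _ => hterm k
    _ = d * (2 * (B * η)) := by
        rw [Finset.sum_const, Finset.card_univ, Fintype.card_fin, nsmul_eq_mul]

/-- powers -/
lemma pow_bound (hd : 1 ≤ d) {T : ℝ} {X : Matrix (Fin d) (Fin d) ℝ} (hX : MB X T)
    (n : ℕ) : MB (X ^ n) ((d * T) ^ n) := by
  have hd' : (1 : ℝ) ≤ d := by exact_mod_cast hd
  induction n with
  | zero =>
    intro i j
    rw [pow_zero, pow_zero, Matrix.one_apply]
    split_ifs <;> simp
  | succ n ih =>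
    rw [pow_succ]
    refine fun i j => (ih.mul hX i j).trans (le_of_eq ?_)
    ring

lemma pow_sub_bound (hd : 1 ≤ d) {T e : ℝ} (hT : 1 ≤ T) (he : 0 ≤ e)
    {X Y : Matrix (Fin d) (Fin d) ℝ} (hX : MB X T) (hY : MB Y T) (hXY : MB (X - Y) e) (n : ℕ) :
    MB (X ^ n - Y ^ n) (n * (d * T) ^ n * e) := by
  have hd' : (1 : ℝ) ≤ d := by exact_mod_cast hd
  have hT0 : (0 : ℝ) ≤ T := by linarith
  induction n with
  | zero =>
    intro i j
    simp
  | succ n ih =>
    have h1 : X ^ (n + 1) - Y ^ (n + 1) = (X ^ n - Y ^ n) * X + Y ^ n * (X - Y) := by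
      rw [pow_succ, pow_succ, sub_mul, mul_sub]
      abel
    intro i j
    rw [h1, Matrix.add_apply]
    have h2 := ih.mul hX i j
    have h3 := (pow_bound hd hY n).mul hXY i j
    have h4 : (0 : ℝ) ≤ (d * T) ^ n := by positivity
    have h5 : (d : ℝ) ≤ d * T := by nlinarith
    calc |((X ^ n - Y ^ n) * X) i j + (Y ^ n * (X - Y)) i j|
        ≤ |((X ^ n - Y ^ n) * X) i j| + |(Y ^ n * (X - Y)) i j| := abs_add_le _ _
      _ ≤ d * (n * (d * T) ^ n * e * T) + d * ((d * T) ^ n * e) := add_le_add h2 h3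
      _ ≤ d * (n * (d * T) ^ n * e * T) + (d * T) * ((d * T) ^ n * e) := by
          have := mul_le_mul_of_nonneg_right h5 (mul_nonneg h4 he)
          linarith
      _ = ((n + 1 : ℕ) : ℝ) * (d * T) ^ (n + 1) * e := by push_cast; ring

/-- products of close numbers -/
lemma prod_sub_bound {ι : Type*} (s : Finset ι) {U e : ℝ} (hU : 1 ≤ U) (he : 0 ≤ e) {x y : ι → ℝ}
    (hx : ∀ i ∈ s, |x i| ≤ U) (hy : ∀ i ∈ s, |y i| ≤ U) (hxy : ∀ i ∈ s, |x i - y i| ≤ e) :
    |∏ i ∈ s, x i - ∏ i ∈ s, y i| ≤ s.card * U ^ s.card * e := by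
  classical
  induction s using Finset.induction_on with
  | empty => simp
  | insert a s ha ih =>
    rw [Finset.prod_insert ha, Finset.prod_insert ha, Finset.card_insert_of_notMem ha]
    have h1 := ih (fun i hi => hx i (Finset.mem_insert_of_mem hi))
      (fun i hi => hy i (Finset.mem_insert_of_mem hi))
      (fun i hi => hxy i (Finset.mem_insert_of_mem hi))
    have h2 := hx a (Finset.mem_insert_self _ _)
    have h3 := hxy a (Finset.mem_insert_self _ _)
    have hU0 : 0 ≤ U := by linarith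
    have h4 : |∏ i ∈ s, y i| ≤ U ^ s.card := by
      rw [Finset.abs_prod]
      refine (Finset.prod_le_prod (fun _ _ => abs_nonneg _)
        (fun i hi => hy i (Finset.mem_insert_of_mem hi))).trans (le_of_eq ?_)
      rw [Finset.prod_const]
    have e1 : x a * ∏ i ∈ s, x i - y a * ∏ i ∈ s, y i =
        x a * (∏ i ∈ s, x i - ∏ i ∈ s, y i) + (x a - y a) * ∏ i ∈ s, y i := by ring
    have h5 : U ^ s.card ≤ U ^ (s.card + 1) := pow_le_pow_right₀ hU (Nat.le_succ _)
    calc |x a * ∏ i ∈ s, x i - y a * ∏ i ∈ s, y i|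
        ≤ |x a * (∏ i ∈ s, x i - ∏ i ∈ s, y i)| + |(x a - y a) * ∏ i ∈ s, y i| := by
          rw [e1]; exact abs_add_le _ _
      _ ≤ U * (s.card * U ^ s.card * e) + e * U ^ s.card := by
          rw [abs_mul, abs_mul]
          exact add_le_add (mul_le_mul h2 h1 (abs_nonneg _) hU0)
            (mul_le_mul h3 h4 (abs_nonneg _) he)
      _ ≤ U * (s.card * U ^ s.card * e) + e * U ^ (s.card + 1) := by
          have := mul_le_mul_of_nonneg_left h5 he
          linarith
      _ = ((s.card + 1 : ℕ) : ℝ) * U ^ (s.card + 1) * e := by push_cast; ring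

lemma det_sub_bound {U e : ℝ} (hU : 1 ≤ U) (he : 0 ≤ e) {P Q : Matrix (Fin d) (Fin d) ℝ}
    (hP : MB P U) (hQ : MB Q U) (hPQ : MB (P - Q) e) :
    |P.det - Q.det| ≤ d.factorial * (d * U ^ d * e) := by
  rw [Matrix.det_apply', Matrix.det_apply', ← Finset.sum_sub_distrib]
  refine (Finset.abs_sum_le_sum_abs _ _).trans ?_
  have hterm : ∀ σ : Equiv.Perm (Fin d),
      |((Equiv.Perm.sign σ : ℤ) : ℝ) * ∏ i, P (σ i) i -
        ((Equiv.Perm.sign σ : ℤ) : ℝ) * ∏ i, Q (σ i) i| ≤ d * U ^ d * e := by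
    intro σ
    rw [← mul_sub, abs_mul]
    have h1 : |((Equiv.Perm.sign σ : ℤ) : ℝ)| = 1 := by
      rcases Int.units_eq_one_or (Equiv.Perm.sign σ) with h | h <;> simp [h]
    rw [h1, one_mul]
    have h2 := prod_sub_bound Finset.univ (U := U) (e := e) (x := fun i => P (σ i) i)
      (y := fun i => Q (σ i) i) hU he (fun i _ => hP _ _) (fun i _ => hQ _ _)
      (fun i _ => hPQ (σ i) i)
    rwa [Finset.card_univ, Fintype.card_fin] at h2
  refine (Finset.sum_le_sum fun σ _ => hterm σ).trans (le_of_eq ?_)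
  rw [Finset.sum_const, Finset.card_univ, Fintype.card_perm, Fintype.card_fin, nsmul_eq_mul]

/-- the matrix of the trace form -/
noncomputable def TF {K : Type*} [Field K] (X : Matrix (Fin d) (Fin d) K) :
    Matrix (Fin d) (Fin d) K := Matrix.of fun i j : Fin d => (X ^ ((i : ℕ) + (j : ℕ))).trace

lemma trace_bound {Y : Matrix (Fin d) (Fin d) ℝ} {U : ℝ} (hY : MB Y U) : |Y.trace| ≤ d * U := by
  unfold Matrix.trace
  refine (Finset.abs_sum_le_sum_abs _ _).trans ?_
  refine (Finset.sum_le_sum (g := fun _ => U) fun i _ => ?_).trans (le_of_eq ?_)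
  · rw [Matrix.diag_apply]; exact hY i i
  · rw [Finset.sum_const, Finset.card_univ, Fintype.card_fin, nsmul_eq_mul]

/-- **The gap between the diagonal entries.** -/
theorem gap (hd : 1 ≤ d) {B η : ℝ} (hB : 1 ≤ B) (hη : 0 ≤ η) (hηB : η ≤ B)
    {X : Matrix (Fin d) (Fin d) ℝ} (hX : ND B η X) (hdisc : 1 ≤ |(TF X).det|)
    (hsmall : d.factorial * (d * (d * (d * B) ^ (2 * d)) ^ d *
      (d * ((2 * d) * (d * B) ^ (2 * d) * η))) ≤ 1 / 2) (i j : Fin d) (hij : i ≠ j) :
    1 / 2 ≤ |X i i - X j j| * (2 * B) ^ (d * d) := by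
  classical
  set Δ : Matrix (Fin d) (Fin d) ℝ := diagonal fun i => X i i with hΔ
  have hd' : (1 : ℝ) ≤ d := by exact_mod_cast hd
  have hdB : 1 ≤ (d : ℝ) * B := by nlinarith
  have hXB := hX.mb hηB
  have hΔB : MB Δ B := by
    intro a b
    by_cases hab : a = b
    · subst hab
      rw [hΔ, diagonal_apply_eq]; exact hXB a a
    · rw [hΔ, diagonal_apply_ne _ hab, abs_zero]; linarith
  have hE : MB (X - Δ) η := by
    intro a b
    rw [Matrix.sub_apply]
    by_cases hab : a = b
    · subst hab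
      rw [hΔ, diagonal_apply_eq, sub_self, abs_zero]; exact hη
    · rw [hΔ, diagonal_apply_ne _ hab, sub_zero]
      have := hX a b
      rwa [if_neg hab] at this
  set U : ℝ := d * (d * B) ^ (2 * d) with hU
  have hU1 : 1 ≤ U := by
    have : 1 ≤ ((d : ℝ) * B) ^ (2 * d) := one_le_pow₀ hdB
    rw [hU]; nlinarith
  have hTF : ∀ Y : Matrix (Fin d) (Fin d) ℝ, MB Y B → MB (TF Y) U := by
    intro Y hY a b
    have h1 := trace_bound (pow_bound hd hY ((a : ℕ) + b))
    refine h1.trans ?_
    rw [hU]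
    refine mul_le_mul_of_nonneg_left (pow_le_pow_right₀ hdB ?_) (by linarith)
    have := a.2; have := b.2; omega
  have hTFsub : MB (TF X - TF Δ) (d * ((2 * d) * (d * B) ^ (2 * d) * η)) := by
    intro a b
    have h0 : (TF X - TF Δ) a b = (X ^ ((a : ℕ) + b) - Δ ^ ((a : ℕ) + b)).trace := by
      rw [Matrix.trace_sub]; rfl
    rw [h0]
    refine (trace_bound (pow_sub_bound hd hB hη hXB hΔB hE ((a : ℕ) + b))).trans ?_
    refine mul_le_mul_of_nonneg_left ?_ (by linarith)
    refine mul_le_mul_of_nonneg_right ?_ hη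
    have hab : (a : ℕ) + b ≤ 2 * d := by have := a.2; have := b.2; omega
    refine mul_le_mul ?_ (pow_le_pow_right₀ hdB hab) (by positivity) (by positivity)
    exact_mod_cast hab
  have h1 := det_sub_bound hU1 (by positivity) (hTF X hXB) (hTF Δ hΔB) hTFsub
  have h2 : 1 / 2 ≤ |(TF Δ).det| := by
    have h3 := abs_sub_abs_le_abs_sub (TF X).det (TF Δ).det
    linarith [h1.trans hsmall]
  -- Vandermonde
  have hV : TF Δ = (vandermonde fun i => X i i)ᵀ * vandermonde fun i => X i i := by
    ext a b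
    rw [Matrix.mul_apply]
    show (Δ ^ ((a : ℕ) + (b : ℕ))).trace = _
    rw [hΔ, diagonal_pow, Matrix.trace_diagonal]
    refine Finset.sum_congr rfl fun k _ => ?_
    rw [transpose_apply, vandermonde_apply, vandermonde_apply, ← pow_add]
    rfl
  have h3 : (TF Δ).det = (vandermonde fun i => X i i).det ^ 2 := by
    rw [hV, det_mul, det_transpose]; ring
  have h4 : 1 / 2 ≤ |(vandermonde fun i => X i i).det| := by
    rw [h3, abs_pow] at h2
    by_contra hcon
    push Not at hcon
    have := abs_nonneg (vandermonde fun i => X i i).det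
    nlinarith
  -- the product
  rw [det_vandermonde, Finset.prod_sigma', Finset.abs_prod] at h4
  have key : ∀ (p : Σ _ : Fin d, Fin d), p ∈ (Finset.univ.sigma fun i : Fin d => Finset.Ioi i) →
      (∏ x ∈ Finset.univ.sigma fun i : Fin d => Finset.Ioi i, |X x.2 x.2 - X x.1 x.1|) ≤
        |X p.2 p.2 - X p.1 p.1| * (2 * B) ^ (d * d) := by
    intro p hp
    rw [← Finset.mul_prod_erase _ _ hp]
    refine mul_le_mul_of_nonneg_left ?_ (abs_nonneg _)
    have h5 : ∀ x ∈ (Finset.univ.sigma fun i : Fin d => Finset.Ioi i).erase p,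
        |X x.2 x.2 - X x.1 x.1| ≤ 2 * B := by
      intro x _
      have a1 := hXB x.2 x.2
      have a2 := hXB x.1 x.1
      calc |X x.2 x.2 - X x.1 x.1| ≤ |X x.2 x.2| + |X x.1 x.1| := abs_sub _ _
        _ ≤ 2 * B := by linarith
    refine (Finset.prod_le_prod (fun _ _ => abs_nonneg _) h5).trans ?_
    rw [Finset.prod_const]
    refine pow_le_pow_right₀ (by linarith) ?_
    refine (Finset.card_erase_le).trans ?_
    rw [Finset.card_sigma]
    calc ∑ a : Fin d, (Finset.Ioi a).card ≤ ∑ _a : Fin d, d := by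
          refine Finset.sum_le_sum fun a _ => ?_
          have := Finset.card_le_univ (Finset.Ioi a)
          rwa [Fintype.card_fin] at this
      _ = d * d := by rw [Finset.sum_const, Finset.card_univ, Fintype.card_fin, smul_eq_mul]
  rcases lt_or_gt_of_ne hij with h | h
  · have h6 := key ⟨i, j⟩ (by simp [h])
    have h7 := h4.trans h6
    rwa [abs_sub_comm] at h7
  · have h6 := key ⟨j, i⟩ (by simp [h])
    exact h4.trans h6

/-- **Matrices which commute with a near-diagonal matrix with a gap.** -/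
theorem commuting_bound (hd : 1 ≤ d) {B η g : ℝ} (hη : 0 ≤ η) (hg : 0 < g)
    {N Y : Matrix (Fin d) (Fin d) ℝ} (hN : ND B η N) (hgap : ∀ i j, i ≠ j → g ≤ |N i i - N j j|)
    (hsmall : 4 * (d * d) * η ≤ g) (hcomm : Y * N = N * Y) {t : ℝ} (ht : |(Y ^ 2).trace| ≤ t ^ 2)
    (ht0 : 0 ≤ t) : MB Y (2 * t) := by
  classical
  have hd' : (1 : ℝ) ≤ d := by exact_mod_cast hd
  have hne : Nonempty (Fin d × Fin d) := ⟨(⟨0, hd⟩, ⟨0, hd⟩)⟩
  obtain ⟨p, hp⟩ := Finite.exists_max (fun p : Fin d × Fin d => |Y p.1 p.2|)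
  set m : ℝ := |Y p.1 p.2| with hm
  have hYm : MB Y m := fun i j => hp (i, j)
  have hm0 : 0 ≤ m := abs_nonneg _
  have hoff : ∀ i j, i ≠ j → |Y i j| ≤ m / (2 * d) := by
    intro i j hij
    have h1 := congrFun (congrFun hcomm i) j
    rw [Matrix.mul_apply, Matrix.mul_apply,
      ← Finset.add_sum_erase Finset.univ (fun k => Y i k * N k j) (Finset.mem_univ j),
      ← Finset.add_sum_erase Finset.univ (fun k => N i k * Y k j) (Finset.mem_univ i)] at h1
    have e1 : Y i j * (N j j - N i i) = ∑ k ∈ Finset.univ.erase i, N i k * Y k j -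
        ∑ k ∈ Finset.univ.erase j, Y i k * N k j := by linarith
    have h2 : |∑ k ∈ Finset.univ.erase i, N i k * Y k j| ≤ d * (η * m) := by
      refine (Finset.abs_sum_le_sum_abs _ _).trans ?_
      refine (Finset.sum_le_sum (g := fun _ => η * m) fun k hk => ?_).trans ?_
      · rw [abs_mul]
        have h3 := hN i k
        rw [if_neg (Finset.ne_of_mem_erase hk).symm] at h3
        exact mul_le_mul h3 (hYm k j) (abs_nonneg _) hη
      · rw [Finset.sum_const, nsmul_eq_mul]
        refine mul_le_mul_of_nonneg_right ?_ (mul_nonneg hη hm0)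
        have := Finset.card_le_univ (Finset.univ.erase i)
        rw [Fintype.card_fin] at this
        exact_mod_cast this
    have h2' : |∑ k ∈ Finset.univ.erase j, Y i k * N k j| ≤ d * (η * m) := by
      refine (Finset.abs_sum_le_sum_abs _ _).trans ?_
      refine (Finset.sum_le_sum (g := fun _ => η * m) fun k hk => ?_).trans ?_
      · rw [abs_mul]
        have h3 := hN k j
        rw [if_neg (Finset.ne_of_mem_erase hk)] at h3
        calc |Y i k| * |N k j| ≤ m * η := mul_le_mul (hYm i k) h3 (abs_nonneg _) hm0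
          _ = η * m := mul_comm _ _
      · rw [Finset.sum_const, nsmul_eq_mul]
        refine mul_le_mul_of_nonneg_right ?_ (mul_nonneg hη hm0)
        have := Finset.card_le_univ (Finset.univ.erase j)
        rw [Fintype.card_fin] at this
        exact_mod_cast this
    have h4 : |Y i j| * |N j j - N i i| ≤ 2 * (d * (η * m)) := by
      rw [← abs_mul, e1]
      refine (abs_sub _ _).trans ?_
      linarith
    have h5 := hgap j i hij.symm
    have h6 : |Y i j| * g ≤ 2 * (d * (η * m)) :=
      (mul_le_mul_of_nonneg_left h5 (abs_nonneg _)).trans h4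
    rw [le_div_iff₀ (by positivity)]
    have h7 : |Y i j| * (2 * d) * g ≤ m * g := by
      have h8 : 4 * (d * d) * η * m ≤ g * m := mul_le_mul_of_nonneg_right hsmall hm0
      have h9 : |Y i j| * g * (2 * d) ≤ 2 * (d * (η * m)) * (2 * d) :=
        mul_le_mul_of_nonneg_right h6 (by positivity)
      nlinarith
    exact le_of_mul_le_mul_right h7 hg
  -- the trace
  have htr : (Y ^ 2).trace = ∑ i, ∑ k, Y i k * Y k i := by
    rw [pow_two]
    rfl
  have hlow : m ^ 2 - m ^ 2 / 4 ≤ t ^ 2 ∨ m = 0 := by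
    by_cases hpp : p.1 = p.2
    swap
    · right
      have h1 := hoff p.1 p.2 hpp
      rw [← hm, le_div_iff₀ (by positivity)] at h1
      nlinarith
    left
    have h1 : ∀ i, Y i i ^ 2 - d * (m / (2 * d)) ^ 2 ≤ ∑ k, Y i k * Y k i := by
      intro i
      rw [← Finset.add_sum_erase Finset.univ (fun k => Y i k * Y k i) (Finset.mem_univ i)]
      have h2 : |∑ k ∈ Finset.univ.erase i, Y i k * Y k i| ≤ d * (m / (2 * d)) ^ 2 := by
        refine (Finset.abs_sum_le_sum_abs _ _).trans ?_
        refine (Finset.sum_le_sum (g := fun _ => (m / (2 * d)) ^ 2) fun k hk => ?_).trans ?_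
        · have hki := Finset.ne_of_mem_erase hk
          rw [abs_mul, pow_two]
          exact mul_le_mul (hoff i k hki.symm) (hoff k i hki) (abs_nonneg _) (by positivity)
        · rw [Finset.sum_const, nsmul_eq_mul]
          refine mul_le_mul_of_nonneg_right ?_ (by positivity)
          have := Finset.card_le_univ (Finset.univ.erase i)
          rw [Fintype.card_fin] at this
          exact_mod_cast this
      have h3 := (abs_le.1 h2).1
      simp only [pow_two] at h3 ⊢
      linarith
    have h2 : ∑ i, (Y i i ^ 2 - d * (m / (2 * d)) ^ 2) ≤ (Y ^ 2).trace := by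
      rw [htr]
      exact Finset.sum_le_sum fun i _ => h1 i
    rw [Finset.sum_sub_distrib, Finset.sum_const, Finset.card_univ, Fintype.card_fin,
      nsmul_eq_mul] at h2
    have h3 : m ^ 2 ≤ ∑ i, Y i i ^ 2 := by
      have h4 := Finset.single_le_sum (f := fun i => Y i i ^ 2) (fun i _ => sq_nonneg _)
        (Finset.mem_univ p.1)
      refine le_trans (le_of_eq ?_) h4
      rw [hm, sq_abs, ← hpp]
    have h4 : (d : ℝ) * (d * (m / (2 * d)) ^ 2) = m ^ 2 / 4 := by
      field_simp
      ring
    have h5 := (le_abs_self _).trans ht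
    linarith
  have hm2 : m ≤ 2 * t := by
    rcases hlow with h | h
    · by_contra hcon
      push Not at hcon
      nlinarith
    · rw [h]; positivity
  exact fun i j => (hYm i j).trans hm2

end Pool.Agent.V7H37.RT
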