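import Mathlib
import Pool.Agent.N759.UC.Main
import Pool.Agent.V7H37.RT.Alg
import Pool.Agent.V7H37.RT.Near

/-! # Near-diagonal integral matrices along a diagonal direction -/

set_option autoImplicit false

open Filter Topology Matrix

namespace Pool.Agent.V7H37.RT

open H715R2 Pool.Agent.N759.NV Pool.Agent.N759.WP Pool.Agent.N759.UC

variable {d : ℕ}

/-- the matrix of `γ` with respect to the linear forms -/
noncomputable def Xm (h : Matrix (Fin d) (Fin d) ℝ) (γ : Matrix (Fin d) (Fin d) ℤ) :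
    Matrix (Fin d) (Fin d) ℝ := h * zR γ * h⁻¹

/-- the characteristic polynomial is irreducible -/
def Irr (γ : Matrix (Fin d) (Fin d) ℤ) : Prop := Irreducible (mQ γ).charpoly

lemma zR_sub (γ γ' : Matrix (Fin d) (Fin d) ℤ) : zR (γ - γ') = zR γ - zR γ' := by
  ext i j; simp [zR]

lemma zR_pow (γ : Matrix (Fin d) (Fin d) ℤ) (n : ℕ) : zR (γ ^ n) = zR γ ^ n := by
  induction n with
  | zero => rw [pow_zero, pow_zero, zR_one]
  | succ n ih => rw [pow_succ, pow_succ, zR_mul, ih]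

lemma mQ_mul (γ γ' : Matrix (Fin d) (Fin d) ℤ) : mQ (γ * γ') = mQ γ * mQ γ' :=
  (Int.castRingHom ℚ).mapMatrix.map_mul γ γ'

lemma mQ_pow (γ : Matrix (Fin d) (Fin d) ℤ) (n : ℕ) : mQ (γ ^ n) = mQ γ ^ n :=
  (Int.castRingHom ℚ).mapMatrix.map_pow γ n

lemma mQ_inj {γ γ' : Matrix (Fin d) (Fin d) ℤ} (h : mQ γ = mQ γ') : γ = γ' := by
  ext i j
  have := congrFun (congrFun h i) j
  simp only [mQ, map_apply, eq_intCast] at this
  exact_mod_cast this

lemma Xm_mul {h : Matrix (Fin d) (Fin d) ℝ} (hh : h.det ≠ 0) (γ γ' : Matrix (Fin d) (Fin d) ℤ) :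
    Xm h (γ * γ') = Xm h γ * Xm h γ' := by
  have hu : IsUnit h.det := isUnit_iff_ne_zero.2 hh
  unfold Xm
  rw [zR_mul]
  simp only [Matrix.mul_assoc]
  rw [← Matrix.mul_assoc h⁻¹ h, Matrix.nonsing_inv_mul _ hu, Matrix.one_mul]

lemma Xm_pow {h : Matrix (Fin d) (Fin d) ℝ} (hh : h.det ≠ 0) (γ : Matrix (Fin d) (Fin d) ℤ)
    (n : ℕ) : Xm h (γ ^ n) = Xm h γ ^ n := by
  have hu : IsUnit h.det := isUnit_iff_ne_zero.2 hh
  induction n with
  | zero =>
    rw [pow_zero, pow_zero]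
    unfold Xm
    rw [zR_one, Matrix.mul_one, Matrix.mul_nonsing_inv _ hu]
  | succ n ih => rw [pow_succ, pow_succ, Xm_mul hh, ih]

lemma Xm_sub (h : Matrix (Fin d) (Fin d) ℝ) (γ γ' : Matrix (Fin d) (Fin d) ℤ) :
    Xm h (γ - γ') = Xm h γ - Xm h γ' := by
  unfold Xm
  rw [zR_sub, Matrix.mul_sub, Matrix.sub_mul]

lemma Xm_mul_self {h : Matrix (Fin d) (Fin d) ℝ} (hh : h.det ≠ 0)
    (γ : Matrix (Fin d) (Fin d) ℤ) : Xm h γ * h = h * zR γ := by
  have hu : IsUnit h.det := isUnit_iff_ne_zero.2 hh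
  unfold Xm
  rw [Matrix.mul_assoc, Matrix.nonsing_inv_mul _ hu, Matrix.mul_one]

lemma trace_Xm {h : Matrix (Fin d) (Fin d) ℝ} (hh : h.det ≠ 0) (γ : Matrix (Fin d) (Fin d) ℤ) :
    (Xm h γ).trace = ((γ.trace : ℤ) : ℝ) := by
  have hu : IsUnit h.det := isUnit_iff_ne_zero.2 hh
  unfold Xm
  rw [Matrix.trace_mul_comm, ← Matrix.mul_assoc, Matrix.nonsing_inv_mul _ hu, Matrix.one_mul]
  simp [Matrix.trace, zR]

lemma Xm_diag {h : Matrix (Fin d) (Fin d) ℝ} (hh : h.det ≠ 0) {b : Fin d → ℝ} (hb : ∀ i, 0 < b i)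
    (γ : Matrix (Fin d) (Fin d) ℤ) (i j : Fin d) :
    Xm (diagonal b * h) γ i j = b i * (b j)⁻¹ * Xm h γ i j := by
  have hu : IsUnit h.det := isUnit_iff_ne_zero.2 hh
  have hinv : (diagonal b * h)⁻¹ = h⁻¹ * diagonal fun i => (b i)⁻¹ := by
    refine Matrix.inv_eq_right_inv ?_
    rw [Matrix.mul_assoc, ← Matrix.mul_assoc h, Matrix.mul_nonsing_inv _ hu, Matrix.one_mul,
      diagonal_mul_diagonal, ← diagonal_one]
    congr 1
    funext i
    exact mul_inv_cancel₀ (hb i).ne'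
  have e : Xm (diagonal b * h) γ = diagonal b * Xm h γ * diagonal fun i => (b i)⁻¹ := by
    unfold Xm
    rw [hinv]
    simp only [Matrix.mul_assoc]
  rw [e, mul_diagonal, diagonal_mul]
  ring

lemma Xm_mulV {h : Matrix (Fin d) (Fin d) ℝ} {V : Matrix (Fin d) (Fin d) ℤ} (hV : IsUnit V.det)
    (γ : Matrix (Fin d) (Fin d) ℤ) : Xm (h * zR V) (V⁻¹ * γ * V) = Xm h γ := by
  unfold Xm
  rw [zR_mul, zR_mul, Matrix.mul_inv_rev]
  have h1 : (zR V)⁻¹ = zR V⁻¹ := Matrix.inv_eq_right_inv (zR_inv hV)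
  rw [h1]
  have h2 := zR_inv hV
  calc h * zR V * (zR V⁻¹ * zR γ * zR V) * (zR V⁻¹ * h⁻¹)
      = h * (zR V * zR V⁻¹) * zR γ * (zR V * zR V⁻¹) * h⁻¹ := by simp only [Matrix.mul_assoc]
    _ = h * zR γ * h⁻¹ := by rw [h2, Matrix.mul_one, Matrix.mul_one]

lemma irr_conj {V γ : Matrix (Fin d) (Fin d) ℤ} (hV : IsUnit V.det) (h : Irr γ) :
    Irr (V⁻¹ * γ * V) := by
  unfold Irr at h ⊢
  have hmul : mQ V⁻¹ * mQ V = 1 := by
    rw [← mQ_mul, Matrix.nonsing_inv_mul _ hV]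
    simp [mQ]
  have hmul' : mQ V * mQ V⁻¹ = 1 := by
    rw [← mQ_mul, Matrix.mul_nonsing_inv _ hV]
    simp [mQ]
  have e : mQ (V⁻¹ * γ * V) = mQ V⁻¹ * mQ γ * mQ V := by rw [mQ_mul, mQ_mul]
  have h2 : (mQ (V⁻¹ * γ * V)).charpoly = (mQ γ).charpoly := by
    rw [e]
    have h3 := Matrix.charpoly_units_conj' (⟨mQ V, mQ V⁻¹, hmul', hmul⟩ : (Matrix (Fin d) (Fin d) ℚ)ˣ)
      (mQ γ)
    have h4 : (mQ V)⁻¹ = mQ V⁻¹ := Matrix.inv_eq_right_inv hmul'
    rw [← h4]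
    exact h3
  rwa [h2]

/-- **Near-diagonal integral matrices commute.** -/
theorem commute_of_near {h : Matrix (Fin d) (Fin d) ℝ} (hh : h.det ≠ 0)
    {V : Matrix (Fin d) (Fin d) ℤ} (hV : IsUnit V.det) {R R' : ℝ} (hR : MB (h * zR V) R)
    (hR' : MB (h * zR V)⁻¹ R') {B η : ℝ} (hη : 0 ≤ η) (hηB : η ≤ B)
    (hsmall : d * (d * (R' * (d * (2 * (B * η)))) * R) < 1) {γ γ' : Matrix (Fin d) (Fin d) ℤ}
    (h1 : ND B η (Xm h γ)) (h2 : ND B η (Xm h γ')) : γ * γ' = γ' * γ := by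
  set H := h * zR V with hH
  have hHdet : H.det ≠ 0 := by
    rw [hH, det_mul, det_zR]
    refine mul_ne_zero hh ?_
    have := abs_det_of_isUnit hV
    intro h0
    rw [h0, abs_zero] at this
    exact zero_ne_one this
  have hHu : IsUnit H.det := isUnit_iff_ne_zero.2 hHdet
  set W := V⁻¹ * (γ * γ' - γ' * γ) * V with hW
  have e1 : H * zR W * H⁻¹ = Xm h γ * Xm h γ' - Xm h γ' * Xm h γ := by
    rw [← Xm_mul hh, ← Xm_mul hh, ← Xm_sub, ← Xm_mulV hV]
    rfl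
  have e2 : zR W = H⁻¹ * (Xm h γ * Xm h γ' - Xm h γ' * Xm h γ) * H := by
    rw [← e1]
    calc zR W = (H⁻¹ * H) * zR W * (H⁻¹ * H) := by
          rw [Matrix.nonsing_inv_mul _ hHu, Matrix.one_mul, Matrix.mul_one]
      _ = H⁻¹ * (H * zR W * H⁻¹) * H := by simp only [Matrix.mul_assoc]
  have hb : MB (zR W) (d * (d * (R' * (d * (2 * (B * η)))) * R)) := by
    rw [e2]
    exact (hR'.mul (comm_small hη hηB h1 h2)).mul hR
  have hW0 : W = 0 := by
    ext i j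
    have h3 := (hb i j).trans_lt hsmall
    have h4 : |((W i j : ℤ) : ℝ)| < 1 := h3
    have h5 : |W i j| < 1 := by exact_mod_cast h4
    exact Int.abs_lt_one_iff.1 h5
  have h6 : V * W * V⁻¹ = γ * γ' - γ' * γ := by
    rw [hW]
    calc V * (V⁻¹ * (γ * γ' - γ' * γ) * V) * V⁻¹ = (V * V⁻¹) * (γ * γ' - γ' * γ) * (V * V⁻¹) := by
          simp only [Matrix.mul_assoc]
      _ = _ := by rw [Matrix.mul_nonsing_inv _ hV, Matrix.one_mul, Matrix.mul_one]
  rw [hW0, Matrix.mul_zero, Matrix.zero_mul] at h6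
  exact sub_eq_zero.1 h6.symm

/-- the discriminant is at least one in absolute value -/
lemma disc_bound {h : Matrix (Fin d) (Fin d) ℝ} (hh : h.det ≠ 0) {γ : Matrix (Fin d) (Fin d) ℤ}
    (hγ : Irr γ) : 1 ≤ |(TF (Xm h γ)).det| := by
  set D : ℤ := (Matrix.of fun i j : Fin d => (γ ^ ((i : ℕ) + (j : ℕ))).trace).det with hD
  have h1 : (TF (Xm h γ)).det = (D : ℝ) := by
    rw [hD]
    have h0 := (Int.castRingHom ℝ).map_det
      (Matrix.of fun i j : Fin d => (γ ^ ((i : ℕ) + (j : ℕ))).trace)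
    rw [eq_intCast] at h0
    rw [h0]
    congr 1
    ext i j
    show (Xm h γ ^ ((i : ℕ) + (j : ℕ))).trace = (((γ ^ ((i : ℕ) + (j : ℕ))).trace : ℤ) : ℝ)
    rw [← Xm_pow hh, trace_Xm hh]
  have h2 : (TF (mQ γ)).det = (D : ℚ) := by
    rw [hD]
    have h0 := (Int.castRingHom ℚ).map_det
      (Matrix.of fun i j : Fin d => (γ ^ ((i : ℕ) + (j : ℕ))).trace)
    rw [eq_intCast] at h0
    rw [h0]
    congr 1
    ext i j
    show (mQ γ ^ ((i : ℕ) + (j : ℕ))).trace = (((γ ^ ((i : ℕ) + (j : ℕ))).trace : ℤ) : ℚ)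
    rw [← mQ_pow]
    simp [Matrix.trace, mQ]
  have h3 : (D : ℚ) ≠ 0 := by
    rw [← h2]
    exact trace_form_ne _ hγ
  have h4 : D ≠ 0 := by exact_mod_cast h3
  rw [h1]
  have h5 := Int.one_le_abs h4
  exact_mod_cast h5

/-- **Near-diagonal integral matrices at all positions in one direction: one of them is
diagonal.** -/
theorem diag_of_all (hd : 1 ≤ d) {h : Matrix (Fin d) (Fin d) ℝ} (hh : h.det ≠ 0) {R R' : ℝ}
    (hR : ∀ b : Fin d → ℝ, (∀ i, 0 < b i) → ∏ i, b i = 1 → ∃ V : Matrix (Fin d) (Fin d) ℤ,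
      IsUnit V.det ∧ MB (diagonal b * h * zR V) R ∧ MB (diagonal b * h * zR V)⁻¹ R')
    {a : Fin d → ℝ} (ha : ∀ i, 0 < a i) (ha1 : ∏ i, a i = 1) (hinj : Function.Injective a)
    {B η : ℝ} (hB : 1 ≤ B) (hη : 0 ≤ η) (hη1 : η ≤ 1) (haB : ∀ i j, a i ≤ B * a j)
    (hs1 : d * (d * (R' * (d * (2 * (B * (B * η))))) * R) < 1)
    (hs2 : d.factorial * (d * (d * (d * B) ^ (2 * d)) ^ d *
      (d * ((2 * d) * (d * B) ^ (2 * d) * η))) ≤ 1 / 2)
    (hs3 : 8 * (d * d) * (2 * B) ^ (d * d) * η ≤ 1)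
    (hall : ∀ z : ℤ, ∃ γ : Matrix (Fin d) (Fin d) ℤ, Irr γ ∧
      ND B η (Xm (diagonal (fun i => a i ^ z) * h) γ)) :
    ∃ γ : Matrix (Fin d) (Fin d) ℤ, Irr γ ∧ ∀ i j, i ≠ j → Xm h γ i j = 0 := by
  classical
  have hd' : (1 : ℝ) ≤ d := by exact_mod_cast hd
  choose γ hγ hND using hall
  have hpos : ∀ (z : ℤ) i, 0 < a i ^ z := fun z i => zpow_pos (ha i) z
  have hprod : ∀ z : ℤ, ∏ i, a i ^ z = 1 := fun z => by
    rw [Finset.prod_zpow, ha1, _root_.one_zpow]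
  have hdet : ∀ z : ℤ, (diagonal (fun i => a i ^ z) * h).det ≠ 0 := by
    intro z
    rw [det_mul, det_diagonal, hprod, one_mul]
    exact hh
  have hηB : η ≤ B := hη1.trans hB
  -- neighbours commute
  have hadj : ∀ z : ℤ, γ z * γ (z + 1) = γ (z + 1) * γ z := by
    intro z
    obtain ⟨V, hV, hV1, hV2⟩ := hR (fun i => a i ^ (z + 1)) (hpos _) (hprod _)
    refine commute_of_near (hdet (z + 1)) hV hV1 hV2 (B := B) (η := B * η) (by positivity)
      (by nlinarith) hs1 ?_ ?_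
    · intro i j
      have e : Xm (diagonal (fun i => a i ^ (z + 1)) * h) (γ z) i j =
          a i * (a j)⁻¹ * Xm (diagonal (fun i => a i ^ z) * h) (γ z) i j := by
        rw [Xm_diag hh (hpos _), Xm_diag hh (hpos _), zpow_add_one₀ (ha i).ne',
          zpow_add_one₀ (ha j).ne', mul_inv]
        ring
      rw [e]
      have h1 := hND z i j
      split_ifs with hij
      · subst hij
        rw [mul_inv_cancel₀ (ha i).ne', one_mul]
        rwa [if_pos rfl] at h1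
      · rw [if_neg hij] at h1
        rw [abs_mul, abs_of_pos (mul_pos (ha i) (inv_pos.2 (ha j)))]
        refine mul_le_mul ?_ h1 (abs_nonneg _) (by linarith)
        rw [← div_eq_mul_inv, div_le_iff₀ (ha j)]
        exact haB i j
    · exact (hND (z + 1)).mono le_rfl (by nlinarith)
  have hstep : ∀ z w : ℤ, γ z * γ w = γ w * γ z → γ z * γ 0 = γ 0 * γ z →
      γ w * γ 0 = γ 0 * γ w := by
    intro z w h1 h2
    refine mQ_inj ?_
    rw [mQ_mul, mQ_mul]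
    refine comm_trans (mQ (γ z)) (hγ z) _ _ ?_ ?_
    · rw [← mQ_mul, ← mQ_mul, h1]
    · rw [← mQ_mul, ← mQ_mul, h2]
  have hcomm : ∀ z : ℤ, γ z * γ 0 = γ 0 * γ z := by
    intro z
    induction z using Int.induction_on with
    | zero => rfl
    | succ i ih => exact hstep _ _ (hadj _) ih
    | pred i ih =>
      refine hstep _ _ ?_ ih
      have h1 := hadj (-(i : ℤ) - 1)
      rw [sub_add_cancel] at h1
      exact h1.symm
  -- the bound
  have hg0 : (0 : ℝ) < 1 / (2 * (2 * B) ^ (d * d)) := by positivity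
  have hY : ∀ z : ℤ, MB (Xm (diagonal (fun i => a i ^ z) * h) (γ 0)) (2 * (d * B)) := by
    intro z
    refine commuting_bound hd hη hg0 (hND z) (fun i j hij => ?_) ?_ ?_ ?_ (by positivity)
    · have h1 := gap hd hB hη hηB (hND z) (disc_bound (hdet z) (hγ z)) hs2 i j hij
      rw [div_le_iff₀ (by positivity)]
      nlinarith
    · rw [le_div_iff₀ (by positivity)]
      nlinarith
    · rw [← Xm_mul (hdet z), ← Xm_mul (hdet z), hcomm z]
    · rw [← Xm_pow (hdet z), trace_Xm (hdet z), ← trace_Xm (h := diagonal (fun i => a i ^ (0 : ℤ)) * h)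
        (hdet 0), Xm_pow (hdet 0)]
      have h2 := (hND 0).mb hηB
      rw [pow_two (Xm _ _)]
      refine (trace_bound (h2.mul h2)).trans (le_of_eq ?_)
      ring
  refine ⟨γ 0, hγ 0, fun i j hij => ?_⟩
  by_contra hne
  have hx : 0 < |Xm h (γ 0) i j| := abs_pos.2 hne
  have hle : ∀ z : ℤ, (a i * (a j)⁻¹) ^ z * |Xm h (γ 0) i j| ≤ 2 * (d * B) := by
    intro z
    have h1 := hY z i j
    rw [Xm_diag hh (hpos z), abs_mul, abs_of_pos (mul_pos (hpos z i) (inv_pos.2 (hpos z j)))] at h1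
    rw [mul_zpow, _root_.inv_zpow]
    exact h1
  have hq0 : 0 < a i * (a j)⁻¹ := mul_pos (ha i) (inv_pos.2 (ha j))
  have hq1 : a i * (a j)⁻¹ ≠ 1 := by
    intro h1
    apply hij
    apply hinj
    rw [← div_eq_mul_inv, div_eq_one_iff_eq (ha j).ne'] at h1
    exact h1
  rcases lt_or_gt_of_ne hq1 with hlt | hgt
  · obtain ⟨n, hn⟩ := pow_unbounded_of_one_lt (2 * (d * B) / |Xm h (γ 0) i j|)
      ((one_lt_inv₀ hq0).2 hlt)
    have h1 := hle (-(n : ℤ))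
    rw [_root_.zpow_neg, _root_.zpow_natCast, ← inv_pow] at h1
    rw [div_lt_iff₀ hx] at hn
    linarith
  · obtain ⟨n, hn⟩ := pow_unbounded_of_one_lt (2 * (d * B) / |Xm h (γ 0) i j|) hgt
    have h1 := hle (n : ℤ)
    rw [_root_.zpow_natCast] at h1
    rw [div_lt_iff₀ hx] at hn
    linarith

end Pool.Agent.V7H37.RT
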