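import Mathlib
import Pool.Agent.V7H37.RT.Core

/-! # Near-diagonal integral matrices in prime dimension have irreducible characteristic
polynomials -/

set_option autoImplicit false

open Filter Topology Matrix Polynomial

namespace Pool.Agent.V7H37.RT

open H715R2 Pool.Agent.N759.NV Pool.Agent.N759.WP Pool.Agent.N759.UC

variable {d : ℕ}

/-- an eigenvector of a rational matrix for a complex root -/
lemma exists_eigenvector (A : Matrix (Fin d) (Fin d) ℚ) {w : ℂ}
    (hw : (A.charpoly.map (algebraMap ℚ ℂ)).eval w = 0) :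
    ∃ v : Fin d → ℂ, v ≠ 0 ∧ (algebraMap ℚ ℂ).mapMatrix A *ᵥ v = w • v := by
  have h1 : (((algebraMap ℚ ℂ).mapMatrix A).charpoly).eval w = 0 := by
    rw [RingHom.mapMatrix_apply, charpoly_map]
    exact hw
  rw [eval_charpoly] at h1
  obtain ⟨v, hv, hv0⟩ := exists_mulVec_eq_zero_iff.2 h1
  refine ⟨v, hv, ?_⟩
  rw [sub_mulVec, sub_eq_zero] at hv0
  rw [← hv0]
  funext i
  simp

lemma aeval_eigenvector (M : Matrix (Fin d) (Fin d) ℂ) {v : Fin d → ℂ} {w : ℂ}
    (hev : M *ᵥ v = w • v) (p : ℂ[X]) : aeval M p *ᵥ v = p.eval w • v := by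
  have hpow : ∀ n : ℕ, M ^ n *ᵥ v = w ^ n • v := by
    intro n
    induction n with
    | zero => rw [pow_zero, pow_zero, one_mulVec, one_smul]
    | succ n ih => rw [pow_succ', ← mulVec_mulVec, ih, mulVec_smul, hev, smul_smul, pow_succ]
  induction p using Polynomial.induction_on' with
  | add p q hp hq => rw [map_add, add_mulVec, hp, hq, eval_add, add_smul]
  | monomial n a =>
    rw [aeval_monomial, eval_monomial, ← mulVec_mulVec, hpow, Algebra.algebraMap_eq_smul_one,
      smul_mulVec, one_mulVec, smul_smul]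

lemma aeval_map_C (A : Matrix (Fin d) (Fin d) ℚ) (f : ℚ[X]) :
    aeval ((algebraMap ℚ ℂ).mapMatrix A) (f.map (algebraMap ℚ ℂ)) =
      (algebraMap ℚ ℂ).mapMatrix (aeval A f) := by
  induction f using Polynomial.induction_on' with
  | add p q hp hq => rw [Polynomial.map_add, map_add, map_add, map_add, hp, hq]
  | monomial n a =>
    rw [Polynomial.map_monomial, aeval_monomial, aeval_monomial, map_mul, map_pow]
    congr 1
    ext i j
    simp [Matrix.algebraMap_matrix_apply]

lemma det_aeval_eq_zero (A : Matrix (Fin d) (Fin d) ℚ) {p : ℚ[X]} {w : ℂ}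
    (hw : (A.charpoly.map (algebraMap ℚ ℂ)).eval w = 0)
    (hp : (p.map (algebraMap ℚ ℂ)).eval w = 0) : (aeval A p).det = 0 := by
  obtain ⟨v, hv, hev⟩ := exists_eigenvector A hw
  have h1 : ((algebraMap ℚ ℂ).mapMatrix (aeval A p)).det = 0 := by
    rw [← exists_mulVec_eq_zero_iff]
    refine ⟨v, hv, ?_⟩
    rw [← aeval_map_C, aeval_eigenvector _ hev, hp, zero_smul]
  rw [← RingHom.map_det] at h1
  exact (map_eq_zero (algebraMap ℚ ℂ)).1 h1

/-- the degree of an irreducible annihilating polynomial divides the dimension -/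
lemma degree_dvd (A : Matrix (Fin d) (Fin d) ℚ) {f : ℚ[X]} (hf : Irreducible f)
    (h0 : aeval A f = 0) : f.natDegree ∣ d := by
  have hχ0 : A.charpoly ≠ 0 := (charpoly_monic A).ne_zero
  obtain ⟨m, a, hna, he⟩ := WfDvdMonoid.max_power_factor hχ0 hf
  have ha0 : a ≠ 0 := by
    rintro rfl
    rw [mul_zero] at he
    exact hχ0 he
  have hua : IsUnit a := by
    by_contra hcon
    obtain ⟨g, hg, hga⟩ := WfDvdMonoid.exists_irreducible_factor hcon ha0
    have hgχ : g ∣ A.charpoly := by
      rw [he]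
      exact Dvd.dvd.mul_left hga _
    have hfg : ¬ g ∣ f := by
      intro h1
      have h2 := hg.associated_of_dvd hf h1
      exact hna (h2.symm.dvd.trans hga)
    obtain ⟨u, w, huw⟩ := (Irreducible.coprime_iff_not_dvd hg).2 hfg
    have h3 := congrArg (aeval A) huw
    rw [map_add, map_mul, map_mul, h0, mul_zero, add_zero, map_one] at h3
    have h4 := congrArg Matrix.det h3
    rw [det_mul, det_one] at h4
    obtain ⟨z, hz⟩ := IsAlgClosed.exists_root (g.map (algebraMap ℚ ℂ)) (by
      rw [degree_map]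
      exact (degree_pos_of_irreducible hg).ne')
    have hz2 : (A.charpoly.map (algebraMap ℚ ℂ)).eval z = 0 := by
      obtain ⟨q, hq⟩ := hgχ
      rw [hq, Polynomial.map_mul, eval_mul, show (g.map (algebraMap ℚ ℂ)).eval z = 0 from hz,
        zero_mul]
    rw [det_aeval_eq_zero A hz2 hz, mul_zero] at h4
    exact zero_ne_one h4
  have hdeg := congrArg natDegree he
  rw [natDegree_charpoly', natDegree_mul (pow_ne_zero _ hf.ne_zero) ha0, natDegree_pow,
    natDegree_eq_zero_of_isUnit hua, add_zero] at hdeg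
  exact ⟨m, by rw [hdeg, mul_comm]⟩

/-- entries of a sum of multiples of powers -/
lemma sum_pow_bound (hd : 1 ≤ d) {b : ℝ} (hb : 1 ≤ d * b) {K : ℝ} (hK : 0 ≤ K)
    {X : Matrix (Fin d) (Fin d) ℝ} (hX : MB X b) {n : ℕ} (hn : n ≤ d) (q : ℕ → ℝ)
    (hq : ∀ k, |q k| ≤ K) :
    MB (∑ k ∈ Finset.range (n + 1), q k • X ^ k) ((d + 1) * (K * (d * b) ^ d)) := by
  intro i j
  rw [Matrix.sum_apply]
  refine (Finset.abs_sum_le_sum_abs _ _).trans ?_
  refine (Finset.sum_le_sum (g := fun _ => K * (d * b) ^ d) fun k hk => ?_).trans ?_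
  · rw [Matrix.smul_apply, smul_eq_mul, abs_mul]
    refine mul_le_mul (hq k) ((pow_bound hd hX k i j).trans ?_) (abs_nonneg _) hK
    exact pow_le_pow_right₀ hb (by have := Finset.mem_range.1 hk; omega)
  · rw [Finset.sum_const, Finset.card_range, nsmul_eq_mul]
    refine mul_le_mul_of_nonneg_right ?_ (by positivity)
    push_cast
    have : (n : ℝ) ≤ d := by exact_mod_cast hn
    linarith

lemma sum_pow_sub_bound (hd : 1 ≤ d) {b e : ℝ} (hb : 1 ≤ b) (he : 0 ≤ e) {K : ℝ} (hK : 0 ≤ K)
    {X Y : Matrix (Fin d) (Fin d) ℝ} (hX : MB X b) (hY : MB Y b) (hXY : MB (X - Y) e) {n : ℕ}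
    (hn : n ≤ d) (q : ℕ → ℝ) (hq : ∀ k, |q k| ≤ K) :
    MB (∑ k ∈ Finset.range (n + 1), q k • X ^ k - ∑ k ∈ Finset.range (n + 1), q k • Y ^ k)
      ((d + 1) * (K * (d * (d * b) ^ d * e))) := by
  have hd' : (1 : ℝ) ≤ d := by exact_mod_cast hd
  have hdb : 1 ≤ (d : ℝ) * b := by nlinarith
  intro i j
  rw [← Finset.sum_sub_distrib, Matrix.sum_apply]
  refine (Finset.abs_sum_le_sum_abs _ _).trans ?_
  refine (Finset.sum_le_sum (g := fun _ => K * (d * (d * b) ^ d * e)) fun k hk => ?_).trans ?_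
  · rw [← smul_sub, Matrix.smul_apply, smul_eq_mul, abs_mul]
    refine mul_le_mul (hq k) ((pow_sub_bound hd hb he hX hY hXY k i j).trans ?_) (abs_nonneg _) hK
    refine mul_le_mul_of_nonneg_right ?_ he
    have hk' : k ≤ d := by have := Finset.mem_range.1 hk; omega
    exact mul_le_mul (by exact_mod_cast hk') (pow_le_pow_right₀ hdb hk') (by positivity)
      (by positivity)
  · rw [Finset.sum_const, Finset.card_range, nsmul_eq_mul]
    refine mul_le_mul_of_nonneg_right ?_ (by positivity)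
    push_cast
    have : (n : ℝ) ≤ d := by exact_mod_cast hn
    linarith

/-- a singular near-diagonal matrix has a small diagonal entry -/
lemma small_diag (hd : 1 ≤ d) {Y : Matrix (Fin d) (Fin d) ℝ} (hdet : Y.det = 0) (φ : Fin d → ℝ)
    {E : ℝ} (hE : MB (Y - diagonal φ) E) : ∃ i, |φ i| ≤ d * E := by
  classical
  obtain ⟨v, hv, hv0⟩ := exists_mulVec_eq_zero_iff.2 hdet
  have hne : Nonempty (Fin d) := ⟨⟨0, hd⟩⟩
  obtain ⟨i, hi⟩ := Finite.exists_max (fun i => |v i|)
  have hvi : 0 < |v i| := by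
    rcases (abs_nonneg (v i)).lt_or_eq with h | h
    · exact h
    · exfalso
      apply hv
      funext j
      have h1 := hi j
      rw [← h] at h1
      exact abs_eq_zero.1 (le_antisymm h1 (abs_nonneg _))
  refine ⟨i, ?_⟩
  have h1 : φ i * v i = -((Y - diagonal φ) *ᵥ v) i := by
    rw [sub_mulVec, Pi.sub_apply, hv0, mulVec_diagonal, Pi.zero_apply]
    ring
  have h2 : |((Y - diagonal φ) *ᵥ v) i| ≤ d * E * |v i| := by
    unfold mulVec dotProduct
    refine (Finset.abs_sum_le_sum_abs _ _).trans ?_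
    refine (Finset.sum_le_sum (g := fun _ => E * |v i|) fun k _ => ?_).trans (le_of_eq ?_)
    · rw [abs_mul]
      exact mul_le_mul (hE i k) (hi k) (abs_nonneg _) ((abs_nonneg _).trans (hE i k))
    · rw [Finset.sum_const, Finset.card_univ, Fintype.card_fin, nsmul_eq_mul]; ring
  have h3 : |φ i| * |v i| ≤ d * E * |v i| := by
    rw [← abs_mul, h1, abs_neg]
    exact h2
  exact le_of_mul_le_mul_right h3 hvi

/-- complex eigenvalues of a real matrix with bounded entries -/
lemma eigenvalue_bound (hd : 1 ≤ d) {X : Matrix (Fin d) (Fin d) ℝ} {b : ℝ} (hX : MB X b) {w : ℂ}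
    (hw : (X.charpoly.map (algebraMap ℝ ℂ)).eval w = 0) : ‖w‖ ≤ d * b := by
  classical
  have h1 : (((algebraMap ℝ ℂ).mapMatrix X).charpoly).eval w = 0 := by
    rw [RingHom.mapMatrix_apply, charpoly_map]
    exact hw
  rw [eval_charpoly] at h1
  obtain ⟨v, hv, hv0⟩ := exists_mulVec_eq_zero_iff.2 h1
  have hev : (algebraMap ℝ ℂ).mapMatrix X *ᵥ v = w • v := by
    rw [sub_mulVec, sub_eq_zero] at hv0
    rw [← hv0]
    funext i
    simp
  have hne : Nonempty (Fin d) := ⟨⟨0, hd⟩⟩
  obtain ⟨i, hi⟩ := Finite.exists_max (fun i => ‖v i‖)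
  have hvi : 0 < ‖v i‖ := by
    rcases (norm_nonneg (v i)).lt_or_eq with h | h
    · exact h
    · exfalso
      apply hv
      funext j
      have h1 := hi j
      rw [← h] at h1
      exact norm_eq_zero.1 (le_antisymm h1 (norm_nonneg _))
  have h2 := congrFun hev i
  have h3 : ‖w‖ * ‖v i‖ ≤ d * b * ‖v i‖ := by
    rw [← norm_mul]
    have h4 : w * v i = ∑ k, ((X i k : ℝ) : ℂ) * v k := by
      rw [Pi.smul_apply, smul_eq_mul] at h2
      rw [← h2]
      rfl
    rw [h4]
    refine (norm_sum_le _ _).trans ?_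
    refine (Finset.sum_le_sum (g := fun _ => b * ‖v i‖) fun k _ => ?_).trans (le_of_eq ?_)
    · rw [norm_mul, Complex.norm_real, Real.norm_eq_abs]
      exact mul_le_mul (hX i k) (hi k) (norm_nonneg _) ((abs_nonneg _).trans (hX i k))
    · rw [Finset.sum_const, Finset.card_univ, Fintype.card_fin, nsmul_eq_mul]; ring
  exact le_of_mul_le_mul_right h3 hvi

/-- **In prime dimension the characteristic polynomial is irreducible.** -/
theorem irr_of_near (hd : d.Prime) {h : Matrix (Fin d) (Fin d) ℝ} (hh : h.det ≠ 0) {ν : ℝ}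
    (hnu : HasNu h ν) {V : Matrix (Fin d) (Fin d) ℤ} (hV : IsUnit V.det) {R : ℝ} (hR1 : 0 ≤ R)
    (hR : MB (h * zR V) R) {B η : ℝ} (hB : 1 ≤ B) (hη : 0 ≤ η) (hηB : η ≤ B)
    {γ : Matrix (Fin d) (Fin d) ℤ} (hND : ND B η (Xm h γ))
    (hsmall : 2 * (d * ((d + 1) * ((2 * (d * B)) ^ d * (d * (d * B) ^ d * η))) * R) *
      (d * ((d + 1) * ((2 * (d * B)) ^ d * (d * B) ^ d)) * R) ^ (d - 1) < ν)
    (hns : ∀ c : ℤ, γ ≠ c • (1 : Matrix (Fin d) (Fin d) ℤ)) : Irr γ := by
  classical
  have hd1 : 1 ≤ d := hd.one_lt.le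
  have hd' : (1 : ℝ) ≤ d := by exact_mod_cast hd1
  have hdB : 1 ≤ (d : ℝ) * B := by nlinarith
  have hXB := hND.mb hηB
  -- the charpoly over the three rings
  have hcZ : (mQ γ).charpoly = γ.charpoly.map (Int.castRingHom ℚ) := by
    rw [mQ, charpoly_map]
  have hcR : (Xm h γ).charpoly = γ.charpoly.map (Int.castRingHom ℝ) := by
    have hu : IsUnit h.det := isUnit_iff_ne_zero.2 hh
    have h1 := Matrix.charpoly_units_conj (⟨h, h⁻¹, Matrix.mul_nonsing_inv _ hu,
      Matrix.nonsing_inv_mul _ hu⟩ : (Matrix (Fin d) (Fin d) ℝ)ˣ) (zR γ)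
    have h2 : (zR γ).charpoly = γ.charpoly.map (Int.castRingHom ℝ) := by
      unfold zR
      exact charpoly_map γ (Int.castRingHom ℝ)
    rw [← h2, ← h1]
    rfl
  have hroot : ∀ w : ℂ, (γ.charpoly.map (Int.castRingHom ℂ)).eval w = 0 → ‖w‖ ≤ d * B := by
    intro w hw
    refine eigenvalue_bound hd1 hXB ?_
    rw [hcR, Polynomial.map_map]
    have : (algebraMap ℝ ℂ).comp (Int.castRingHom ℝ) = Int.castRingHom ℂ := RingHom.ext_int _ _
    rw [this]
    exact hw
  -- an eigenvalue and its minimal polynomial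
  have hmonZ : γ.charpoly.Monic := charpoly_monic γ
  have hdegZ : γ.charpoly.natDegree = d := by
    rw [charpoly_natDegree_eq_dim, Fintype.card_fin]
  obtain ⟨z, hz⟩ := IsAlgClosed.exists_root (γ.charpoly.map (Int.castRingHom ℂ)) (by
    rw [(hmonZ.degree_map _), degree_eq_natDegree hmonZ.ne_zero, hdegZ]
    exact_mod_cast hd.ne_zero)
  have hz' : aeval z γ.charpoly = 0 := by
    rw [aeval_def, eval₂_eq_eval_map]
    exact hz
  have hint : IsIntegral ℤ z := ⟨γ.charpoly, hmonZ, by
    rw [← aeval_def]; exact hz'⟩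
  set f : ℤ[X] := minpoly ℤ z with hf
  have hfmon : f.Monic := minpoly.monic hint
  have hfdvd : f ∣ γ.charpoly := minpoly.isIntegrallyClosed_dvd hint hz'
  have hfQ : minpoly ℚ z = f.map (Int.castRingHom ℚ) :=
    minpoly.isIntegrallyClosed_eq_field_fractions' ℚ hint
  have hfirr : Irreducible (f.map (Int.castRingHom ℚ)) := by
    rw [← hfQ]
    exact minpoly.irreducible (hint.tower_top)
  set n := f.natDegree with hn
  have hnd : n ≤ d := by
    rw [← hdegZ]
    exact natDegree_le_of_dvd hfdvd hmonZ.ne_zero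
  have hmapdeg : (f.map (Int.castRingHom ℚ)).natDegree = n := hfmon.natDegree_map _
  -- the coefficients
  set K : ℝ := (2 * (d * B)) ^ d with hK
  have hK0 : 0 ≤ K := by positivity
  have hcoef : ∀ k, |((f.coeff k : ℤ) : ℝ)| ≤ K := by
    intro k
    have h1 := coeff_le_of_roots_le (f := Int.castRingHom ℂ) (p := f) (B := d * B) k hfmon
      (IsAlgClosed.splits _) (fun w hw => by
        refine hroot w ?_
        obtain ⟨q, hq⟩ := hfdvd
        rw [hq, Polynomial.map_mul, eval_mul, (mem_roots'.1 hw).2, zero_mul])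
    rw [coeff_map, eq_intCast, Complex.norm_intCast] at h1
    refine h1.trans ?_
    have h2 : ((f.natDegree.choose k : ℕ) : ℝ) ≤ 2 ^ d := by
      have h3 : f.natDegree.choose k ≤ 2 ^ f.natDegree := Nat.choose_le_two_pow _ _
      have h4 : 2 ^ f.natDegree ≤ 2 ^ d := Nat.pow_le_pow_right (by norm_num) hnd
      exact_mod_cast h3.trans h4
    have h5 : ((d : ℝ) * B) ^ (f.natDegree - k) ≤ (d * B) ^ d :=
      pow_le_pow_right₀ hdB ((Nat.sub_le _ _).trans hnd)
    calc ((d : ℝ) * B) ^ (f.natDegree - k) * ((f.natDegree.choose k : ℕ) : ℝ)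
        ≤ (d * B) ^ d * 2 ^ d := mul_le_mul h5 h2 (by positivity) (by positivity)
      _ = K := by rw [hK, mul_pow]; ring
  -- the integral matrix `f γ`
  set β : Matrix (Fin d) (Fin d) ℤ := aeval γ f with hβ
  have hβQ : mQ β = aeval (mQ γ) (f.map (Int.castRingHom ℚ)) := by
    have h1 := Polynomial.map_aeval_eq_aeval_map (R := ℤ) (S := Matrix (Fin d) (Fin d) ℤ)
      (T := ℚ) (U := Matrix (Fin d) (Fin d) ℚ) (φ := Int.castRingHom ℚ)
      (ψ := (Int.castRingHom ℚ).mapMatrix) (RingHom.ext_int _ _) f γ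
    exact h1
  have hdetβ : β.det = 0 := by
    have h1 : (mQ β).det = 0 := by
      rw [hβQ]
      refine det_aeval_eq_zero (mQ γ) (w := z) ?_ ?_
      · rw [hcZ, Polynomial.map_map]
        have : (algebraMap ℚ ℂ).comp (Int.castRingHom ℚ) = Int.castRingHom ℂ := RingHom.ext_int _ _
        rw [this]
        exact hz
      · have h2 := minpoly.aeval ℚ z
        rw [hfQ, aeval_def, eval₂_eq_eval_map] at h2
        exact h2
    have h2 : (mQ β).det = ((β.det : ℤ) : ℚ) := by
      have := (Int.castRingHom ℚ).map_det β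
      rw [eq_intCast] at this
      exact this.symm
    rw [h2] at h1
    exact_mod_cast h1
  set X := Xm h γ with hX
  have hβR : Xm h β = ∑ k ∈ Finset.range (n + 1), ((f.coeff k : ℤ) : ℝ) • X ^ k := by
    have h1 : β = ∑ k ∈ Finset.range (n + 1), f.coeff k • γ ^ k := by
      rw [hβ, aeval_eq_sum_range]
    have h2 : zR β = ∑ k ∈ Finset.range (n + 1), ((f.coeff k : ℤ) : ℝ) • zR (γ ^ k) := by
      rw [h1]
      ext i j
      unfold zR
      rw [Matrix.map_apply, Matrix.sum_apply, Matrix.sum_apply, Int.cast_sum]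
      refine Finset.sum_congr rfl fun k _ => ?_
      rw [Matrix.smul_apply, Matrix.smul_apply, Matrix.map_apply, smul_eq_mul, smul_eq_mul,
        Int.cast_mul]
    have h3 : ∀ k, X ^ k = h * zR (γ ^ k) * h⁻¹ := fun k => by
      rw [hX, ← Xm_pow hh]; rfl
    show h * zR β * h⁻¹ = _
    rw [h2, Finset.mul_sum, Finset.sum_mul]
    refine Finset.sum_congr rfl fun k _ => ?_
    rw [h3 k, mul_smul_comm, smul_mul_assoc]
  set Y := Xm h β with hY
  set Δ : Matrix (Fin d) (Fin d) ℝ := diagonal fun i => X i i with hΔ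
  set φ : Fin d → ℝ := fun i => ∑ k ∈ Finset.range (n + 1), ((f.coeff k : ℤ) : ℝ) * X i i ^ k
    with hφ
  have hΔB : MB Δ B := by
    intro a b
    by_cases hab : a = b
    · subst hab
      rw [hΔ, diagonal_apply_eq]; exact hXB a a
    · rw [hΔ, diagonal_apply_ne _ hab, abs_zero]; linarith
  have hEX : MB (X - Δ) η := by
    intro a b
    rw [Matrix.sub_apply]
    by_cases hab : a = b
    · subst hab
      rw [hΔ, diagonal_apply_eq, sub_self, abs_zero]; exact hη
    · rw [hΔ, diagonal_apply_ne _ hab, sub_zero]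
      have := hND a b
      rwa [if_neg hab] at this
  have hφΔ : ∑ k ∈ Finset.range (n + 1), ((f.coeff k : ℤ) : ℝ) • Δ ^ k = diagonal φ := by
    ext a b
    rw [Matrix.sum_apply, hφ]
    by_cases hab : a = b
    · subst hab
      rw [diagonal_apply_eq]
      refine Finset.sum_congr rfl fun k _ => ?_
      rw [Matrix.smul_apply, hΔ, diagonal_pow, diagonal_apply_eq, Pi.pow_apply, smul_eq_mul]
    · rw [diagonal_apply_ne _ hab]
      refine Finset.sum_eq_zero fun k _ => ?_
      rw [Matrix.smul_apply, hΔ, diagonal_pow, diagonal_apply_ne _ hab, smul_zero]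
  set E : ℝ := (d + 1) * (K * (d * (d * B) ^ d * η)) with hE
  set Q : ℝ := (d + 1) * (K * (d * B) ^ d) with hQ
  have hE0 : 0 ≤ E := by positivity
  have hQ0 : 0 ≤ Q := by positivity
  have hYE : MB (Y - diagonal φ) E := by
    rw [hβR, ← hφΔ]
    exact sum_pow_sub_bound hd1 hB hη hK0 hXB hΔB hEX hnd _ hcoef
  have hYQ : MB Y Q := by
    rw [hβR]
    exact sum_pow_bound hd1 hdB hK0 hXB hnd _ hcoef
  have hYdet : Y.det = 0 := by
    rw [hY]
    unfold Xm
    rw [det_mul, det_mul, det_zR, hdetβ]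
    simp
  obtain ⟨i, hi⟩ := small_diag hd1 hYdet φ hYE
  -- `f γ = 0`
  have hβ0 : β = 0 := by
    by_contra hβne
    have hβV : β * V ≠ 0 := by
      intro h0
      apply hβne
      calc β = β * V * V⁻¹ := by rw [Matrix.mul_assoc, Matrix.mul_nonsing_inv _ hV, Matrix.mul_one]
        _ = 0 := by rw [h0, Matrix.zero_mul]
    obtain ⟨j, hj⟩ : ∃ j, (fun i => (β * V) i j) ≠ 0 := by
      by_contra hcon
      push Not at hcon
      apply hβV
      ext a b
      exact congrFun (hcon b) a
    have hval := hnu _ hj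
    have hcol : ∀ l, (h *ᵥ iR (fun i => (β * V) i j)) l = (Y * (h * zR V)) l j := by
      intro l
      have h1 : Y * (h * zR V) = h * zR (β * V) := by
        rw [← Matrix.mul_assoc, hY, Xm_mul_self hh, zR_mul, Matrix.mul_assoc]
      rw [h1, Matrix.mul_apply]
      rfl
    have hbig : ∀ l, |(h *ᵥ iR (fun i => (β * V) i j)) l| ≤ d * Q * R := by
      intro l
      rw [hcol]
      refine (hYQ.mul hR l j).trans (le_of_eq ?_)
      ring
    have hsm : |(h *ᵥ iR (fun i => (β * V) i j)) i| ≤ 2 * (d * E * R) := by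
      rw [hcol]
      have e : Y * (h * zR V) = (Y - diagonal φ) * (h * zR V) + diagonal φ * (h * zR V) := by
        rw [Matrix.sub_mul]; abel
      rw [e, Matrix.add_apply, diagonal_mul]
      refine (abs_add_le _ _).trans ?_
      have h1 := hYE.mul hR i j
      have h2 : |φ i * (h * zR V) i j| ≤ d * E * R := by
        rw [abs_mul]
        exact mul_le_mul hi (hR i j) (abs_nonneg _) (by positivity)
      linarith
    rw [FF_eq, Finset.abs_prod, ← Finset.mul_prod_erase Finset.univ _ (Finset.mem_univ i)] at hval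
    have h3 : ∏ l ∈ Finset.univ.erase i, |(h *ᵥ iR (fun i => (β * V) i j)) l| ≤
        (d * Q * R) ^ (d - 1) := by
      refine (Finset.prod_le_prod (fun _ _ => abs_nonneg _) (fun l _ => hbig l)).trans (le_of_eq ?_)
      rw [Finset.prod_const, Finset.card_erase_of_mem (Finset.mem_univ i), Finset.card_univ,
        Fintype.card_fin]
    have h4 := hval.trans (mul_le_mul hsm h3 (Finset.prod_nonneg fun _ _ => abs_nonneg _)
      (by positivity))
    exact absurd hsmall (not_lt.2 h4)
  -- the conclusion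
  have haev : aeval (mQ γ) (f.map (Int.castRingHom ℚ)) = 0 := by
    rw [← hβQ, hβ0]
    simp [mQ]
  have hdvd := degree_dvd (mQ γ) hfirr haev
  rw [hmapdeg] at hdvd
  rcases (Nat.dvd_prime hd).1 hdvd with h1 | h1
  · exfalso
    apply hns (-(f.coeff 0))
    have h2 : f = Polynomial.X + C (f.coeff 0) := by
      have h3 := hfmon.eq_X_add_C h1
      exact h3
    have h3 : β = γ + (f.coeff 0) • (1 : Matrix (Fin d) (Fin d) ℤ) := by
      rw [hβ]
      conv_lhs => rw [h2]
      rw [map_add, aeval_X, aeval_C, Algebra.algebraMap_eq_smul_one]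
    rw [hβ0] at h3
    rw [neg_smul]
    exact (eq_neg_of_add_eq_zero_left h3.symm)
  · unfold Irr
    have h2 : (mQ γ).charpoly = f.map (Int.castRingHom ℚ) := by
      refine eq_of_monic_of_dvd_of_natDegree_le (hfmon.map _) (charpoly_monic _) ?_ ?_
      · rw [hcZ]
        exact Polynomial.map_dvd _ hfdvd
      · rw [natDegree_charpoly', hmapdeg, h1]
    rw [h2]
    exact hfirr

end Pool.Agent.V7H37.RT
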