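import Mathlib
import Pool.Agent.V7H37.RT.Core

/-! # Sequences of forms with near-diagonal integral matrices along long segments -/

set_option autoImplicit false

open Filter Topology Matrix Polynomial

namespace Pool.Agent.V7H37.RT

open H715R2 Pool.Agent.N759.NV Pool.Agent.N759.WP Pool.Agent.N759.UC

variable {d : ℕ}

/-- the inverse is bounded -/
lemma inv_MB {A : Matrix (Fin d) (Fin d) ℝ} {C δ : ℝ} (hA : MB A C) (hdet : |A.det| = δ) :
    MB A⁻¹ (δ⁻¹ * (d.factorial * (max C 1) ^ d)) := by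
  intro i k
  have := inv_bound A hA i k
  rwa [hdet] at this

/-- near-diagonality passes to limits -/
lemma near_tendsto {δ : ℝ} (hδ : 0 < δ) {B η : ℝ} {x : ℕ → Matrix (Fin d) (Fin d) ℝ}
    {h : Matrix (Fin d) (Fin d) ℝ} (hx : ∀ n, |(x n).det| = δ) (hlim : Tendsto x atTop (𝓝 h))
    {C : ℝ} (hC : ∀ n, MB (x n) C)
    (hex : ∀ᶠ n in atTop, ∃ γ : Matrix (Fin d) (Fin d) ℤ, Irr γ ∧ ND B η (Xm (x n) γ))
    (hηB : η ≤ B) :
    ∃ γ : Matrix (Fin d) (Fin d) ℤ, Irr γ ∧ ND B η (Xm h γ) := by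
  classical
  have hxdet : ∀ n, (x n).det ≠ 0 := by
    intro n h0
    have := hx n
    rw [h0, abs_zero] at this
    exact hδ.ne this
  have hdeth : |h.det| = δ := by
    have h1 := ((continuous_det'.tendsto h).comp hlim).abs
    refine (tendsto_nhds_unique (h1.congr fun n => ?_) tendsto_const_nhds)
    exact hx n
  have hh : h.det ≠ 0 := by
    intro h0
    rw [h0, abs_zero] at hdeth
    exact hδ.ne hdeth
  -- the matrices are bounded
  set K : ℝ := d * (d * (δ⁻¹ * (d.factorial * (max C 1) ^ d) * B) * C) with hK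
  have hbd : ∀ n (γ : Matrix (Fin d) (Fin d) ℤ), ND B η (Xm (x n) γ) → MB (zR γ) K := by
    intro n γ hγ
    have hu : IsUnit (x n).det := isUnit_iff_ne_zero.2 (hxdet n)
    have e : zR γ = (x n)⁻¹ * Xm (x n) γ * x n := by
      unfold Xm
      calc zR γ = ((x n)⁻¹ * x n) * zR γ * ((x n)⁻¹ * x n) := by
            rw [Matrix.nonsing_inv_mul _ hu, Matrix.one_mul, Matrix.mul_one]
        _ = (x n)⁻¹ * (x n * zR γ * (x n)⁻¹) * x n := by simp only [Matrix.mul_assoc]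
    rw [e]
    exact ((inv_MB (hC n) (hx n)).mul (hγ.mb hηB)).mul (hC n)
  have hfin : ({M : Fin d → Fin d → ℤ | ∀ i k, M i k ∈ Set.Icc (-⌈K⌉) ⌈K⌉}).Finite := by
    have h2 : ({v : Fin d → ℤ | ∀ k, v k ∈ Set.Icc (-⌈K⌉) ⌈K⌉}).Finite :=
      Set.Finite.pi' fun _ => Set.finite_Icc _ _
    exact Set.Finite.pi' fun _ => h2
  have hmem : ∀ n (γ : Matrix (Fin d) (Fin d) ℤ), ND B η (Xm (x n) γ) →
      (γ : Fin d → Fin d → ℤ) ∈ {M : Fin d → Fin d → ℤ | ∀ i k, M i k ∈ Set.Icc (-⌈K⌉) ⌈K⌉} := by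
    intro n γ hγ i k
    have h2 : |((γ i k : ℤ) : ℝ)| ≤ K := hbd n γ hγ i k
    have h2 := abs_le.1 h2
    have h3 := Int.le_ceil K
    constructor
    · have : ((-⌈K⌉ : ℤ) : ℝ) ≤ ((γ i k : ℤ) : ℝ) := by
        rw [Int.cast_neg]
        linarith [h2.1]
      exact_mod_cast this
    · have : ((γ i k : ℤ) : ℝ) ≤ ((⌈K⌉ : ℤ) : ℝ) := h2.2.trans h3
      exact_mod_cast this
  obtain ⟨γ, hfreq⟩ : ∃ γ : Fin d → Fin d → ℤ,
      ∃ᶠ n in atTop, Irr (γ : Matrix (Fin d) (Fin d) ℤ) ∧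
        ND B η (Xm (x n) (γ : Matrix (Fin d) (Fin d) ℤ)) := by
    by_contra hcon
    push Not at hcon
    have h1 : ∀ᶠ n in atTop, ∀ γ ∈ {M : Fin d → Fin d → ℤ | ∀ i k, M i k ∈ Set.Icc (-⌈K⌉) ⌈K⌉},
        Irr (γ : Matrix (Fin d) (Fin d) ℤ) → ¬ ND B η (Xm (x n) (γ : Matrix (Fin d) (Fin d) ℤ)) := by
      rw [eventually_all_finite hfin]
      intro γ _
      exact hcon γ
    obtain ⟨n, hn, γ, hγ1, hγ2⟩ := (h1.and hex).exists
    exact hn γ (hmem n γ hγ2) hγ1 hγ2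
  refine ⟨γ, (hfreq.exists.choose_spec).1, fun i j => ?_⟩
  have hlimX : Tendsto (fun n => Xm (x n) (γ : Matrix (Fin d) (Fin d) ℤ)) atTop
      (𝓝 (Xm h (γ : Matrix (Fin d) (Fin d) ℤ))) := by
    have h1 : Tendsto (fun n => (x n)⁻¹) atTop (𝓝 h⁻¹) := by
      have h2 : ∀ M : Matrix (Fin d) (Fin d) ℝ, M⁻¹ = (M.det)⁻¹ • M.adjugate := by
        intro M
        rw [Matrix.inv_def, Ring.inverse_eq_inv']
      rw [h2 h]
      refine Tendsto.congr (fun n => (h2 (x n)).symm) ?_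
      refine Tendsto.smul ?_ ?_
      · exact ((continuous_det'.tendsto h).comp hlim).inv₀ hh
      · exact ((Continuous.matrix_adjugate continuous_id).tendsto h).comp hlim
    unfold Xm
    exact (hlim.mul tendsto_const_nhds).mul h1
  have h3 : Tendsto (fun n => |Xm (x n) (γ : Matrix (Fin d) (Fin d) ℤ) i j|) atTop
      (𝓝 |Xm h (γ : Matrix (Fin d) (Fin d) ℤ) i j|) := by
    have h4 : Continuous (fun M : Matrix (Fin d) (Fin d) ℝ => |M i j|) :=
      continuous_abs.comp (continuous_apply_apply i j)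
    exact (h4.tendsto _).comp hlimX
  exact le_of_tendsto_of_frequently h3 (hfreq.mono fun n hn => hn.2 i j)

/-- **Sequences.** -/
theorem bad_seq (hd : 3 ≤ d) {δ ν : ℝ} (hδ : 0 < δ) (hν : 0 < ν) {R : ℝ}
    (hR : ∀ h : Matrix (Fin d) (Fin d) ℝ, |h.det| = δ → HasNu h ν →
      ∃ γ : Matrix (Fin d) (Fin d) ℤ, IsUnit γ.det ∧ ∀ i j, |(h * zR γ) i j| ≤ R)
    {a : Fin d → ℝ} (ha : ∀ i, 0 < a i) (ha1 : ∏ i, a i = 1) (hinj : Function.Injective a)
    {B η : ℝ} (hB : 1 ≤ B) (hη : 0 ≤ η) (hη1 : η ≤ 1) (haB : ∀ i j, a i ≤ B * a j)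
    (hs1 : d * (d * (δ⁻¹ * (d.factorial * (max R 1) ^ d) * (d * (2 * (B * (B * η))))) * R) < 1)
    (hs2 : d.factorial * (d * (d * (d * B) ^ (2 * d)) ^ d *
      (d * ((2 * d) * (d * B) ^ (2 * d) * η))) ≤ 1 / 2)
    (hs3 : 8 * (d * d) * (2 * B) ^ (d * d) * η ≤ 1)
    (g : ℕ → Matrix (Fin d) (Fin d) ℝ) (N : ℕ → ℕ) (hN : ∀ i, i ≤ N i)
    (hg : ∀ i, |(g i).det| = δ) (hnu : ∀ i, HasNu (g i) ν)
    (hbad : ∀ i, ∀ z : ℕ, z ≤ N i → ∃ γ : Matrix (Fin d) (Fin d) ℤ, Irr γ ∧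
      ND B η (Xm (diagonal (fun t => a t ^ z) * g i) γ)) :
    ∃ s : ℕ → ℕ, (∀ i, i ≤ s i) ∧ (∀ i, PropInt (g (s i))) ∧ ∀ i j, Eqv (g (s i)) (g (s j)) := by
  classical
  have hd1 : 1 ≤ d := by omega
  have hpos : ∀ (z : ℤ) i, 0 < a i ^ z := fun z i => zpow_pos (ha i) z
  have hprod : ∀ z : ℤ, ∏ i, a i ^ z = 1 := fun z => by
    rw [Finset.prod_zpow, ha1, _root_.one_zpow]
  -- the centres
  set c : ℕ → ℕ := fun i => N i / 2 with hc
  have hcorb : ∀ (b : Fin d → ℝ), (∀ i, 0 < b i) → ∏ i, b i = 1 → ∀ h : Matrix (Fin d) (Fin d) ℝ,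
      |h.det| = δ → HasNu h ν → |(diagonal b * h).det| = δ ∧ HasNu (diagonal b * h) ν := by
    intro b hb0 hb h h1 h2
    refine ⟨by rw [det_mul, det_diagonal, hb, one_mul]; exact h1, fun m hm => ?_⟩
    rw [FF_diag_mul, hb, one_mul]
    exact h2 m hm
  have hVex : ∀ i, ∃ γ : Matrix (Fin d) (Fin d) ℤ, IsUnit γ.det ∧
      ∀ k j, |(diagonal (fun t => a t ^ ((c i : ℕ) : ℤ)) * g i * zR γ) k j| ≤ R := by
    intro i
    obtain ⟨h1, h2⟩ := hcorb _ (hpos (c i : ℕ)) (hprod _) (g i) (hg i) (hnu i)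
    exact hR _ h1 h2
  choose V hV hVR using hVex
  set y : ℕ → Matrix (Fin d) (Fin d) ℝ := fun i =>
    diagonal (fun t => a t ^ ((c i : ℕ) : ℤ)) * g i * zR (V i) with hy
  obtain ⟨h, -, φ, hφ, hlim⟩ := (isCompact_box (d := d) R).tendsto_subseq (x := y)
    (fun m => hVR m)
  have hyorb : ∀ i, y i ∈ Orb (g i) := fun i => ⟨_, _, hpos _, hprod _, hV i, rfl⟩
  have hydet : ∀ i, |(y i).det| = δ := fun i => by rw [abs_det_orb (hyorb i), hg]
  have hnuh : HasNu h ν := hasNu_tendsto (fun n => hasNu_orb (hnu _) (hyorb (φ n))) hlim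
  have hdeth : |h.det| = δ := by
    have h1 := ((continuous_det'.tendsto h).comp hlim).abs
    refine (tendsto_nhds_unique (h1.congr fun n => ?_) tendsto_const_nhds)
    exact hydet (φ n)
  have hh : h.det ≠ 0 := by
    intro h0
    rw [h0, abs_zero] at hdeth
    exact hδ.ne hdeth
  -- all positions
  have hall : ∀ z : ℤ, ∃ γ : Matrix (Fin d) (Fin d) ℤ, Irr γ ∧
      ND B η (Xm (diagonal (fun i => a i ^ z) * h) γ) := by
    intro z
    obtain ⟨A₀, hA₀⟩ : ∃ A₀ : ℝ, ∀ i, a i ^ z ≤ A₀ :=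
      ⟨∑ i, a i ^ z, fun i => Finset.single_le_sum (f := fun i => a i ^ z)
        (fun i _ => (hpos z i).le) (Finset.mem_univ i)⟩
    refine near_tendsto hδ (x := fun n => diagonal (fun i => a i ^ z) * y (φ n)) (C := A₀ * R)
      (fun n => ?_) ?_ (fun n i j => ?_) ?_ (hη1.trans hB)
    · rw [det_mul, det_diagonal, hprod, one_mul]
      exact hydet _
    · have h1 : Continuous (fun M : Matrix (Fin d) (Fin d) ℝ => diagonal (fun i => a i ^ z) * M) :=
        continuous_const.matrix_mul continuous_id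
      exact (h1.tendsto h).comp hlim
    · rw [diagonal_mul, abs_mul, abs_of_pos (hpos z i)]
      have h1 := hVR (φ n) i j
      exact mul_le_mul (hA₀ i) h1 (abs_nonneg _) ((hpos z i).le.trans (hA₀ i))
    · filter_upwards [eventually_ge_atTop (2 * z.natAbs + 2)] with n hn
      have h2 := hφ.id_le n
      simp only [id] at h2
      have h3 := hN (φ n)
      obtain ⟨t, ht⟩ : ∃ t : ℕ, (t : ℤ) = (c (φ n) : ℕ) + z := by
        refine ⟨((c (φ n) : ℕ) + z).toNat, Int.toNat_of_nonneg ?_⟩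
        simp only [hc]
        omega
      have ht2 : t ≤ N (φ n) := by
        simp only [hc] at ht
        omega
      obtain ⟨γ, hγ, hND⟩ := hbad (φ n) t ht2
      refine ⟨(V (φ n))⁻¹ * γ * V (φ n), irr_conj (hV _) hγ, ?_⟩
      have e : diagonal (fun i => a i ^ z) * y (φ n) =
          (diagonal (fun i => a i ^ t) * g (φ n)) * zR (V (φ n)) := by
        have e1 : (diagonal fun i => a i ^ t) = diagonal (fun i => a i ^ z) *
            diagonal fun i => a i ^ ((c (φ n) : ℕ) : ℤ) := by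
          rw [diagonal_mul_diagonal]
          congr 1
          funext i
          rw [← zpow_add₀ (ha i).ne', add_comm z, ← ht, _root_.zpow_natCast]
        rw [e1]
        simp only [hy, Matrix.mul_assoc]
      rw [e, Xm_mulV (hV _)]
      exact hND
  obtain ⟨γ, hγ, hdiag⟩ := diag_of_all hd1 hh (R := R)
    (R' := δ⁻¹ * (d.factorial * (max R 1) ^ d)) (fun b hb0 hb => by
      obtain ⟨h1, h2⟩ := hcorb b hb0 hb h hdeth hnuh
      obtain ⟨W, hW, hWR⟩ := hR _ h1 h2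
      refine ⟨W, hW, hWR, inv_MB hWR ?_⟩
      rw [det_mul, abs_mul, h1, det_zR, abs_det_of_isUnit hW, mul_one])
    ha ha1 hinj hB hη hη1 haB hs1 hs2 hs3 hall
  -- the algebraic structure
  have hfact : Fact (Irreducible (mQ γ).charpoly) := ⟨hγ⟩
  have hrow : ∀ i j, ∑ k, h i k * (mQ γ k j : ℝ) = Xm h γ i i * h i j := by
    intro i j
    have h1 := congrFun (congrFun (Xm_mul_self hh γ) i) j
    rw [Matrix.mul_apply, Matrix.mul_apply, Finset.sum_eq_single i] at h1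
    · rw [h1]
      refine Finset.sum_congr rfl fun k _ => ?_
      simp [mQ, zR]
    · intro k _ hk
      rw [hdiag i k hk.symm, zero_mul]
    · intro h0; exact absurd (Finset.mem_univ i) h0
  have hh' : ∃ f : ℚ[X], ∃ _ : Fact (Irreducible f),
      ∃ D : Dat (AdjoinRoot f) d, D.g ∈ closure (Orb h) := by
    obtain ⟨D, hD⟩ := Pool.Agent.R629.CSD.build (mQ γ) hd h hh {⟨0, by omega⟩}
      (by rw [Finset.card_singleton]; exact Nat.one_pos)
      (by rw [Finset.card_singleton]; omega)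
      (fun i hi => by
        refine ⟨fun k => Xm h γ k k, fun j => ?_⟩
        rw [Finset.mem_singleton] at hi
        rw [Finset.sum_singleton, hrow, hi])
      (fun M _ hlt hdvd => by
        rw [Finset.card_singleton, mul_one] at hdvd
        have hne : Nonempty (Fin d) := ⟨⟨0, by omega⟩⟩
        have h2 : 0 < (minpoly ℚ M).natDegree :=
          minpoly.natDegree_pos (Algebra.IsIntegral.isIntegral M)
        exact absurd (Nat.le_of_dvd h2 hdvd) (by omega))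
    obtain ⟨D', hD'⟩ := D.exists_dat hν (by rw [hD]; exact hnuh)
    rw [hD] at hD'
    exact ⟨_, hfact, D', hD'⟩
  exact iso_of_limit hδ hν g hg hnu φ (fun i => hφ.id_le i) (fun i => y (φ i))
    (fun i => hyorb _) hlim hh'

end Pool.Agent.V7H37.RT
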